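import Pool.Agent.H66.SX.Extend
import Pool.Graph.R_seed8.H126R2.CDC.Lift

set_option autoImplicit false

/-!
The blocks of the positions of a circuit.
-/

namespace Pool.Agent.H66.SX

open Finset
open Pool.Agent.TH505.OCDC Pool.Agent.TH505.SC
open Pool.Agent.Helper879.ECD (F2 IsFlow f2_add_self f2_cases)

variable {V ι : Type}

/-- the other leaf of the component -/
lemma exists_partner [Fintype V] (J : SimpleGraph V) (h2 : ∀ v, (nb J v).card ≤ 2) :
    ∃ y : V → V, (∀ v, y (y v) = v) ∧ (∀ v, (nb J v).card ≠ 1 → y v = v) ∧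
      ∀ v, (nb J v).card = 1 → y v ≠ v ∧ (nb J (y v)).card = 1 ∧ J.Reachable v (y v) ∧
        ∀ z, (nb J z).card = 1 → J.Reachable v z → z = v ∨ z = y v := by
  classical
  have key : ∀ v, ∃ y, ((nb J v).card ≠ 1 → y = v) ∧
      ((nb J v).card = 1 → y ≠ v ∧ (nb J y).card = 1 ∧ J.Reachable v y ∧
        ∀ z, (nb J z).card = 1 → J.Reachable v z → z = v ∨ z = y) := by
    intro v
    by_cases h : (nb J v).card = 1
    · obtain ⟨y, hy⟩ := leaf_pair J h2 v h
      exact ⟨y, fun h' => absurd h h', fun _ => hy⟩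
    · exact ⟨v, fun _ => rfl, fun h' => absurd h' h⟩
  choose y hy1 hy2 using key
  refine ⟨y, ?_, hy1, hy2⟩
  intro v
  by_cases h : (nb J v).card = 1
  · obtain ⟨a1, a2, a3, a4⟩ := hy2 v h
    obtain ⟨b1, b2, b3, b4⟩ := hy2 (y v) a2
    rcases b4 v h a3.symm with h1 | h1
    · exact absurd h1.symm a1
    · exact h1.symm
  · rw [hy1 v h, hy1 v h]

lemma cU_card (a : ℕ → ℕ) (t : ℕ) (U : ℕ → Bool) (m : ℕ) :
    cU a t U m = ((range m).filter (fun i => U i = true ∧ a i ≠ t)).card := by
  induction m with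
  | zero => simp [cU]
  | succ m ih =>
    rw [Finset.range_add_one, Finset.filter_insert, cU_succ]
    by_cases h : U m = true ∧ a m ≠ t
    · rw [if_pos h, if_pos h, Finset.card_insert_of_notMem (by simp), ih]
    · rw [if_neg h, if_neg h, ih, add_zero]

lemma sU_sum (a : ℕ → ℕ) (t : ℕ) (U : ℕ → Bool) (m : ℕ) :
    sU a t U m = ∑ i ∈ (range m).filter (fun i => U i = true ∧ a i ≠ t), cn a t i := by
  induction m with
  | zero => simp [sU]
  | succ m ih =>
    rw [Finset.range_add_one, Finset.filter_insert]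
    by_cases h : U m = true ∧ a m ≠ t
    · rw [if_pos h, Finset.sum_insert (by simp)]
      simp only [sU]
      rw [ih]
      have e1 : (a m == t) = false := by simpa using h.2
      rw [e1, h.1]
      simp only [Bool.not_false, Bool.and_self, cond_true]
      ring
    · rw [if_neg h]
      simp only [sU]
      rw [ih]
      have e1 : (U m && !(a m == t)) = false := by
        by_cases hU : U m = true
        · have : (a m == t) = true := by
            have : a m = t := by
              by_contra h'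
              exact h ⟨hU, h'⟩
            simpa using this
          rw [this]; simp
        · rw [Bool.not_eq_true] at hU
          rw [hU]; rfl
      rw [e1]
      simp

lemma cn_card (a : ℕ → ℕ) (t : ℕ) (m : ℕ) :
    cn a t m = ((range m).filter (fun i => a i ≠ t)).card := by
  induction m with
  | zero => simp [cn]
  | succ m ih =>
    rw [Finset.range_add_one, Finset.filter_insert, cn_succ]
    by_cases h : a m = t
    · rw [if_pos h, ih, if_neg (by simpa using h), add_zero]
    · rw [if_neg h, if_pos h, ih, Finset.card_insert_of_notMem (by simp)]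

lemma swp_congr {a : ℕ → ℕ} {t : ℕ} {U U' : ℕ → Bool} (h : ∀ i, a i ≠ t → U i = U' i) :
    swp a t U = swp a t U' := by
  funext i
  by_cases hi : a i = t
  · rw [swp_not (fun h => h.2 hi), swp_not (fun h => h.2 hi)]
  · by_cases hU : U i = true
    · rw [swp_of ⟨hU, hi⟩, swp_of ⟨(h i hi) ▸ hU, hi⟩]
    · rw [swp_not (fun h' => hU h'.1), swp_not (fun h' => hU ((h i hi).trans h'.1))]

/-- a switch of two positions -/
lemma swp_pair {a : ℕ → ℕ} {t i i' : ℕ} {U : ℕ → Bool} (hi : a i ≠ t) (hi' : a i' ≠ t)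
    (h : ∀ x, a x ≠ t → (U x = true ↔ x = i ∨ x = i')) : swp a t U = sw a t i i' := by
  funext x
  unfold sw
  by_cases hx : a x = t
  · rw [swp_not (fun h => h.2 hx)]
    have e1 : (x == i) = false := by
      rw [beq_eq_false_iff_ne]; rintro rfl; exact hi hx
    have e2 : (x == i') = false := by
      rw [beq_eq_false_iff_ne]; rintro rfl; exact hi' hx
    rw [e1, e2]
    rfl
  · by_cases hU : U x = true
    · rw [swp_of ⟨hU, hx⟩]
      have e : (x == i || x == i') = true := by
        rw [Bool.or_eq_true, beq_iff_eq, beq_iff_eq]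
        exact (h x hx).1 hU
      rw [e]
      rfl
    · rw [swp_not (fun h' => hU h'.1)]
      have e : (x == i || x == i') = false := by
        rw [Bool.eq_false_iff]
        intro h'
        rw [Bool.or_eq_true, beq_iff_eq, beq_iff_eq] at h'
        exact hU ((h x hx).2 h')
      rw [e]
      rfl

/-- the chains: `y` maps every end of a chain to its other end -/
structure Chains [Fintype V] (J : SimpleGraph V) (y : V → V) : Prop where
  inv : ∀ v, y (y v) = v
  on : ∀ v, (nb J v).card = 1 → y v ≠ v ∧ (nb J (y v)).card = 1 ∧ J.Reachable v (y v) ∧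
    ∀ z, (nb J z).card = 1 → J.Reachable v z → z = v ∨ z = y v

/-- the number of the circuit of a vertex -/
structure Index (n : ι → ℕ) (q : ι → ℕ → V) (S : Finset ι) (idx : V → Option ι) : Prop where
  on : ∀ j ∈ S, ∀ i, i < n j → idx (q j i) = some j

section
variable [Fintype V] {G : SimpleGraph V} {n : ι → ℕ} {q f : ι → ℕ → V} (hs : Sys G n q f)
include hs

lemma Sys.leaf_pos {S : Finset ι} {c : Sym2 V → ℕ} (hv : Valid G n q f S c) {t : ℕ} (ht : t < 3)
    {v : V} (h : (nb (Jg (OffS G q S) c t) v).card = 1) :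
    ∃ j ∈ S, ∃ i, i < n j ∧ v = q j i ∧ Wd n q f c j i ≠ t := by
  rcases hs.deg_cases hv.1 ht v with ⟨_, h'⟩ | ⟨j, hj, i, hi, hvi, ⟨hW, h'⟩ | ⟨_, h'⟩⟩
  · omega
  · exact ⟨j, hj, i, hi, hvi, hW⟩
  · omega

open scoped Classical in
/-- the leaves in a set on one circuit, as positions -/
lemma Sys.leaves_image {S : Finset ι} {c : Sym2 V → ℕ} (hv : Valid G n q f S c) {t : ℕ}
    (ht : t < 3) {idx : V → Option ι} (hidx : Index n q S idx) (Kl : Finset V)
    (hKl : ∀ v ∈ Kl, (nb (Jg (OffS G q S) c t) v).card = 1) {j : ι} (hj : j ∈ S) :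
    Kl.filter (fun v => idx v = some j) =
      ((range (n j)).filter (fun i => q j i ∈ Kl ∧ Wd n q f c j i ≠ t)).image (q j) := by
  ext v
  rw [Finset.mem_filter, Finset.mem_image]
  constructor
  · rintro ⟨h1, h3⟩
    obtain ⟨j', hj', i, hi, hvi, hW⟩ := hs.leaf_pos hv ht (hKl v h1)
    have h4 : j' = j := by
      rw [hvi, hidx.on j' hj' i hi] at h3
      exact Option.some.inj h3
    subst h4
    refine ⟨i, ?_, hvi.symm⟩
    rw [Finset.mem_filter, Finset.mem_range, ← hvi]
    exact ⟨hi, h1, hW⟩
  · rintro ⟨i, h1, h3⟩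
    rw [Finset.mem_filter, Finset.mem_range] at h1
    rw [← h3]
    exact ⟨h1.2.1, hidx.on j hj i h1.1⟩

open scoped Classical in
lemma Sys.leaves_card {S : Finset ι} {c : Sym2 V → ℕ} (hv : Valid G n q f S c) {t : ℕ}
    (ht : t < 3) {idx : V → Option ι} (hidx : Index n q S idx) (Kl : Finset V)
    (hKl : ∀ v ∈ Kl, (nb (Jg (OffS G q S) c t) v).card = 1) {j : ι} (hj : j ∈ S) :
    (Kl.filter (fun v => idx v = some j)).card =
      ((range (n j)).filter (fun i => q j i ∈ Kl ∧ Wd n q f c j i ≠ t)).card := by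
  rw [hs.leaves_image hv ht hidx Kl hKl hj, Finset.card_image_of_injOn]
  intro a ha b hb hab
  rw [Finset.mem_coe, Finset.mem_filter, Finset.mem_range] at ha hb
  exact (hs.circ j).inj _ _ ha.1 hb.1 hab

open scoped Classical in
/-- switching chains given by their ends -/
theorem Sys.switch_leaves {S : Finset ι} {c : Sym2 V → ℕ} (hv : Valid G n q f S c) {t : ℕ}
    (ht : t < 3) {y : V → V} (hy : Chains (Jg (OffS G q S) c t) y) {idx : V → Option ι}
    (hidx : Index n q S idx) (Kl : Finset V)
    (hKl : ∀ v ∈ Kl, (nb (Jg (OffS G q S) c t) v).card = 1) (hyK : ∀ v ∈ Kl, y v ∈ Kl)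
    (hev : ∀ j ∈ S, (Kl.filter (fun v => idx v = some j)).card % 2 = 0) :
    ∃ c', Valid G n q f S c' ∧
      ∀ j ∈ S, Wd n q f c' j = swp (Wd n q f c j) t (fun i => decide (i < n j ∧ q j i ∈ Kl)) := by
  set J := Jg (OffS G q S) c t with hJ
  let K : V → Prop := fun v => ∃ u ∈ Kl, J.Reachable u v
  have hK : ∀ u v, J.Adj u v → K u → K v := by
    rintro u v huv ⟨w, hw, hwu⟩
    exact ⟨w, hw, hwu.trans huv.reachable⟩
  have hKl' : ∀ v, (nb J v).card = 1 → (K v ↔ v ∈ Kl) := by
    intro v hv1
    constructor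
    · rintro ⟨u, hu, huv⟩
      rcases (hy.on u (hKl u hu)).2.2.2 v hv1 huv with h | h
      · rw [h]; exact hu
      · rw [h]; exact hyK u hu
    · intro h
      exact ⟨v, h, SimpleGraph.Reachable.refl _⟩
  let U : ι → ℕ → Bool := fun j i => decide (i < n j ∧ K (q j i))
  have hU : ∀ j i, U j i = true ↔ i < n j ∧ K (q j i) := by
    intro j i; simp [U]
  have hleafK : ∀ j ∈ S, ∀ i, i < n j → Wd n q f c j i ≠ t → (K (q j i) ↔ q j i ∈ Kl) :=
    fun j hj i hi hW => hKl' _ (hs.leaf (c := c) (t := t) hj hi hW)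
  obtain ⟨c', hc', hW'⟩ := hs.valid_switch hv ht K hK U (fun j _ i => hU j i) (by
    intro j hj
    rw [cU_card]
    have h1 := hev j hj
    rw [hs.leaves_card hv ht hidx Kl hKl hj] at h1
    rw [← h1]
    congr 2
    ext i
    rw [Finset.mem_filter, Finset.mem_filter, Finset.mem_range, hU]
    constructor
    · rintro ⟨h2, ⟨_, h3⟩, h4⟩
      exact ⟨h2, (hleafK j hj i h2 h4).1 h3, h4⟩
    · rintro ⟨h2, h3, h4⟩
      exact ⟨h2, ⟨h2, (hleafK j hj i h2 h4).2 h3⟩, h4⟩)
  refine ⟨c', hc', fun j hj => ?_⟩
  rw [hW' j hj]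
  refine swp_congr fun i hi => ?_
  rw [Bool.eq_iff_iff, hU, decide_eq_true_eq]
  constructor
  · rintro ⟨h2, h3⟩
    exact ⟨h2, (hleafK j hj i h2 hi).1 h3⟩
  · rintro ⟨h2, h3⟩
    exact ⟨h2, (hleafK j hj i h2 hi).2 h3⟩

end

/-! ### The relation -/

/-- two ends of chains are joined by a chain or lie on the same circuit other than number `j0` -/
def Rl [Fintype V] (J : SimpleGraph V) (y : V → V) (idx : V → Option ι) (j0 : ι) (u v : V) : Prop :=
  (nb J u).card = 1 ∧ (nb J v).card = 1 ∧ (v = y u ∨ (idx u = idx v ∧ idx u ≠ some j0))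

/-- the equivalence relation generated by it -/
def El [Fintype V] (J : SimpleGraph V) (y : V → V) (idx : V → Option ι) (j0 : ι) : V → V → Prop :=
  Relation.EqvGen (Rl J y idx j0)

lemma el_equiv [Fintype V] (J : SimpleGraph V) (y : V → V) (idx : V → Option ι) (j0 : ι) :
    Equivalence (El J y idx j0) := Relation.EqvGen.is_equivalence _

open scoped Classical in
/-- chains joining two equivalent ends -/
lemma el_chain [Fintype V] {J : SimpleGraph V} {y : V → V} (hy : Chains J y) {idx : V → Option ι}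
    {j0 : ι} {u v : V} (h : El J y idx j0 u v) :
    ∃ k : V → F2, (∀ w, k (y w) = k w) ∧ (∀ w, (nb J w).card ≠ 1 → k w = 0) ∧
      (∀ w, idx w = some j0 → k w = (if w = u then 1 else 0) + (if w = v then 1 else 0)) ∧
      ∀ j, j ≠ j0 → ∑ w, (if idx w = some j then k w else 0) =
        (if idx u = some j then 1 else 0) + (if idx v = some j then 1 else 0) := by
  induction h with
  | rel u v h =>
    obtain ⟨hu, hv, rfl | ⟨h1, h2⟩⟩ := h
    · refine ⟨fun w => (if w = u then 1 else 0) + (if w = y u then 1 else 0), ?_, ?_, ?_, ?_⟩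
      · intro w
        have e1 : y w = u ↔ w = y u :=
          ⟨fun h => by rw [← h, hy.inv], fun h => by rw [h, hy.inv]⟩
        have e2 : y w = y u ↔ w = u :=
          ⟨fun h => by rw [← hy.inv w, h, hy.inv], fun h => by rw [h]⟩
        simp only [e1, e2]
        exact add_comm _ _
      · intro w hw
        have e1 : w ≠ u := fun h => hw (h ▸ hu)
        have e2 : w ≠ y u := fun h => hw (h ▸ hv)
        simp [e1, e2]
      · intro w _
        rfl
      · intro j _
        have h3 : ∀ w, (if idx w = some j then ((if w = u then (1 : F2) else 0) +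
            (if w = y u then 1 else 0)) else 0) =
            (if w = u then (if idx u = some j then 1 else 0) else 0) +
            (if w = y u then (if idx (y u) = some j then 1 else 0) else 0) := by
          intro w
          have hne : u ≠ y u := (hy.on u hu).1.symm
          by_cases h4 : w = u
          · rw [h4, if_pos rfl, if_pos rfl, if_neg hne, if_neg hne]
            simp
          · by_cases h5 : w = y u
            · rw [h5, if_pos rfl, if_pos rfl, if_neg hne.symm, if_neg hne.symm, zero_add, zero_add]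
            · simp [h4, h5]
        simp only [h3, Finset.sum_add_distrib, Finset.sum_ite_eq', Finset.mem_univ, if_true]
    · refine ⟨fun _ => 0, fun _ => rfl, fun _ _ => rfl, ?_, ?_⟩
      · intro w hw
        have e1 : w ≠ u := fun h => h2 (h ▸ hw)
        have e2 : w ≠ v := fun h => h2 (h1.trans (h ▸ hw))
        simp [e1, e2]
      · intro j _
        rw [h1]
        simp only [ite_self, Finset.sum_const_zero]
        exact (f2_add_self _).symm
  | refl u =>
    refine ⟨fun _ => 0, fun _ => rfl, fun _ _ => rfl, fun w _ => (f2_add_self _).symm, fun j _ => ?_⟩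
    simp only [ite_self, Finset.sum_const_zero]
    exact (f2_add_self _).symm
  | symm u v _ ih =>
    obtain ⟨k, h1, h2, h3, h4⟩ := ih
    refine ⟨k, h1, h2, fun w hw => ?_, fun j hj => ?_⟩
    · rw [h3 w hw, add_comm]
    · rw [h4 j hj, add_comm]
  | trans u v w _ _ ih1 ih2 =>
    obtain ⟨k, h1, h2, h3, h4⟩ := ih1
    obtain ⟨l, g1, g2, g3, g4⟩ := ih2
    have key : ∀ a b c : F2, a + b + (b + c) = a + c := by decide
    refine ⟨fun x => k x + l x, fun x => ?_, fun x hx => ?_, fun x hx => ?_, fun j hj => ?_⟩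
    · show k (y x) + l (y x) = _
      rw [h1, g1]
    · show k x + l x = 0
      rw [h2 x hx, g2 x hx, add_zero]
    · show k x + l x = _
      rw [h3 x hx, g3 x hx]
      exact key _ _ _
    · have h5 : ∀ x, (if idx x = some j then k x + l x else 0) =
          (if idx x = some j then k x else 0) + (if idx x = some j then l x else 0) := by
        intro x
        split_ifs <;> simp
      simp only [h5, Finset.sum_add_distrib]
      rw [h4 j hj, g4 j hj]
      exact key _ _ _

lemma f2_ne {x y : F2} (h : x ≠ y) : x + y = 1 := by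
  revert x y; decide

/-- the parity of the number of ends in a filter -/
lemma card_f2 [Fintype V] (k : V → F2) (P : V → Prop) [DecidablePred P] :
    (((univ.filter (fun w => k w = 1)).filter P).card : F2) = ∑ w, (if P w then k w else 0) := by
  rw [Finset.card_eq_sum_ones, Nat.cast_sum, Finset.sum_filter, Finset.sum_filter]
  refine Finset.sum_congr rfl fun w _ => ?_
  have key : ∀ a : F2, a ≠ 1 → a = 0 := by decide
  by_cases h1 : k w = 1
  · by_cases h2 : P w <;> simp [h1, h2]
  · rw [key _ h1]
    simp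

lemma f2_card_even (m : ℕ) : (m : F2) = 0 ↔ m % 2 = 0 := by
  rw [← Nat.even_iff]
  exact ZMod.natCast_eq_zero_iff_even

section
variable [Fintype V] {G : SimpleGraph V} {n : ι → ℕ} {q f : ι → ℕ → V} (hs : Sys G n q f)
include hs

open scoped Classical in
/-- every union of classes contains an even number of the given ends on the circuit `j0` -/
theorem Sys.class_even {S : Finset ι} {c : Sym2 V → ℕ} (hv : Valid G n q f S c) {t : ℕ}
    (ht : t < 3) {y : V → V} (hy : Chains (Jg (OffS G q S) c t) y) {idx : V → Option ι}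
    (hidx : Index n q S idx) {j0 : ι} (hj0 : j0 ∈ S) (Kl : Finset V)
    (hKl : ∀ v ∈ Kl, (nb (Jg (OffS G q S) c t) v).card = 1) (hyK : ∀ v ∈ Kl, y v ∈ Kl)
    (hev : ∀ j ∈ S, (Kl.filter (fun v => idx v = some j)).card % 2 = 0)
    (D : V → Prop) (hD : ∀ u v, Rl (Jg (OffS G q S) c t) y idx j0 u v → D u → D v) :
    (Kl.filter (fun v => D v ∧ idx v = some j0)).card % 2 = 0 := by
  set J := Jg (OffS G q S) c t with hJ
  let M := Kl.filter D
  have hM : (M.card : F2) = 0 := by
    rw [Finset.card_eq_sum_ones, Nat.cast_sum]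
    refine Finset.sum_involution (fun v _ => y v) ?_ ?_ ?_ ?_
    · intro v _
      simp only [Nat.cast_one]
      exact f2_add_self 1
    · intro v hvM _
      exact (hy.on v (hKl v (Finset.mem_filter.1 hvM).1)).1
    · intro v hvM
      obtain ⟨h1, h2⟩ := Finset.mem_filter.1 hvM
      refine Finset.mem_filter.2 ⟨hyK v h1, hD v _ ⟨hKl v h1, hKl _ (hyK v h1), Or.inl rfl⟩ h2⟩
    · intro v _
      exact hy.inv v
  have h1 : M.card = ∑ j ∈ S, (M.filter (fun v => idx v = some j)).card := by
    have h2 := Finset.card_eq_sum_card_fiberwise (s := M) (t := S.image some) (f := idx) (by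
      intro v hvM
      obtain ⟨j', hj', i, hi, hvi, hW⟩ := hs.leaf_pos hv ht (hKl v (Finset.mem_filter.1 hvM).1)
      rw [hvi, hidx.on j' hj' i hi]
      exact Finset.mem_image_of_mem _ hj')
    rw [Finset.sum_image (fun _ _ _ _ h => Option.some.inj h)] at h2
    exact h2
  have h2 : ∀ j ∈ S, j ≠ j0 → (M.filter (fun v => idx v = some j)).card % 2 = 0 := by
    intro j hj hjj
    by_cases h3 : (M.filter (fun v => idx v = some j)) = ∅
    · rw [h3]; rfl
    · obtain ⟨u, hu⟩ := Finset.nonempty_iff_ne_empty.2 h3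
      rw [Finset.mem_filter] at hu
      have hu1 := Finset.mem_filter.1 hu.1
      have h4 : M.filter (fun v => idx v = some j) = Kl.filter (fun v => idx v = some j) := by
        ext v
        rw [Finset.mem_filter, Finset.mem_filter, Finset.mem_filter]
        constructor
        · exact fun h => ⟨h.1.1, h.2⟩
        · rintro ⟨h5, h6⟩
          refine ⟨⟨h5, hD u v ⟨hKl u hu1.1, hKl v h5, Or.inr ⟨hu.2.trans h6.symm, ?_⟩⟩ hu1.2⟩, h6⟩
          rw [hu.2]
          exact fun h => hjj (Option.some.inj h)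
      rw [h4]
      exact hev j hj
  have h3 : (M.filter (fun v => idx v = some j0)).card % 2 = 0 := by
    rw [f2_card_even] at hM
    rw [← Finset.add_sum_erase S (fun j => (M.filter (fun v => idx v = some j)).card) hj0] at h1
    have h4 : (∑ j ∈ S.erase j0, (M.filter (fun v => idx v = some j)).card) % 2 = 0 := by
      rw [← Nat.even_iff]
      refine Finset.even_sum _ fun j hj => Nat.even_iff.2 ?_
      rw [Finset.mem_erase] at hj
      exact h2 j hj.2 hj.1
    omega
  rw [Finset.filter_filter] at h3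
  exact h3

open scoped Classical in
/-- the ends of all chains -/
noncomputable def allLeaves (J : SimpleGraph V) : Finset V := univ.filter (fun v => (nb J v).card = 1)

omit hs in
lemma mem_allLeaves {J : SimpleGraph V} {v : V} : v ∈ allLeaves J ↔ (nb J v).card = 1 := by
  simp [allLeaves]

open scoped Classical in
lemma Sys.allLeaves_even {S : Finset ι} {c : Sym2 V → ℕ} (hv : Valid G n q f S c) {t : ℕ}
    (ht : t < 3) {idx : V → Option ι} (hidx : Index n q S idx) :
    ∀ j ∈ S, ((allLeaves (Jg (OffS G q S) c t)).filter (fun v => idx v = some j)).card % 2 = 0 := by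
  intro j hj
  rw [hs.leaves_card hv ht hidx _ (fun v hv => mem_allLeaves.1 hv) hj]
  have h1 := hv.2 j hj t ht
  rw [cn_card] at h1
  rw [← h1]
  congr 2
  ext i
  rw [Finset.mem_filter, Finset.mem_filter, Finset.mem_range, mem_allLeaves]
  constructor
  · exact fun h => ⟨h.1, h.2.2⟩
  · exact fun h => ⟨h.1, hs.leaf (c := c) (t := t) hj h.1 h.2, h.2⟩

open scoped Classical in
/-- **The blocks of a circuit.** -/
theorem Sys.blocks {S : Finset ι} {c : Sym2 V → ℕ} (hv : Valid G n q f S c)
    (hmin : ∀ c', Valid G n q f S c' → ∀ j ∈ S, ext (n j) (Wd n q f c' j) = false) {t : ℕ}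
    (ht : t < 3) {y : V → V} (hy : Chains (Jg (OffS G q S) c t) y) {idx : V → Option ι}
    (hidx : Index n q S idx) {j0 : ι} (hj0 : j0 ∈ S) (T : Finset ℕ)
    (hT : ∀ i, i ∈ T ↔ i < n j0 ∧ Wd n q f c j0 i ≠ t) :
    ∃ rel : ℕ → ℕ → Prop, Equivalence rel ∧
      (∀ x ∈ T, Even (T.filter (fun i => rel x i)).card) ∧
      (∀ x ∈ T, ∀ x' ∈ T, x ≠ x' → rel x x' → ext (n j0) (sw (Wd n q f c j0) t x x') = false) ∧
      (∀ Kl : Finset V, (∀ v ∈ Kl, (nb (Jg (OffS G q S) c t) v).card = 1) →
        (∀ v ∈ Kl, y v ∈ Kl) → (∀ j ∈ S, (Kl.filter (fun v => idx v = some j)).card % 2 = 0) →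
        ∀ x ∈ T, (T.filter (fun i => rel x i ∧ q j0 i ∈ Kl)).card % 2 = 0) ∧
      (∀ x ∈ T, ∀ x' ∈ T, x ≠ x' → rel x x' → (∀ i ∈ T, rel x i → i = x ∨ i = x') →
        ∃ c', Valid G n q f S c' ∧ Wd n q f c' j0 = sw (Wd n q f c j0) t x x' ∧
          ∀ j ∈ S, j ≠ j0 → pat (n j) (Wd n q f c' j) = pat (n j) (Wd n q f c j)) := by
  set J := Jg (OffS G q S) c t with hJ
  have hE := el_equiv J y idx j0
  have hleaf : ∀ i ∈ T, (nb J (q j0 i)).card = 1 := fun i hi =>
    hs.leaf (c := c) (t := t) hj0 ((hT i).1 hi).1 ((hT i).1 hi).2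
  have hinj : ∀ i i', i < n j0 → i' < n j0 → q j0 i = q j0 i' → i = i' :=
    fun i i' h h' e => (hs.circ j0).inj _ _ h h' e
  -- classes and given ends
  have hgen : ∀ Kl : Finset V, (∀ v ∈ Kl, (nb J v).card = 1) →
      (∀ v ∈ Kl, y v ∈ Kl) → (∀ j ∈ S, (Kl.filter (fun v => idx v = some j)).card % 2 = 0) →
      ∀ x, (T.filter (fun i => El J y idx j0 (q j0 x) (q j0 i) ∧ q j0 i ∈ Kl)).card % 2 = 0 := by
    intro Kl h1 h2 h3 x
    have h4 := hs.class_even hv ht hy hidx hj0 Kl h1 h2 h3 (fun v => El J y idx j0 (q j0 x) v)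
      (fun u v huv hu => hE.trans hu (Relation.EqvGen.rel _ _ huv))
    have h5 : Kl.filter (fun v => El J y idx j0 (q j0 x) v ∧ idx v = some j0) =
        (Kl.filter (fun v => El J y idx j0 (q j0 x) v)).filter (fun v => idx v = some j0) := by
      rw [Finset.filter_filter]
    rw [h5, hs.leaves_card hv ht hidx _ (fun v hv => h1 v (Finset.mem_filter.1 hv).1) hj0] at h4
    rw [← h4]
    congr 2
    ext i
    rw [Finset.mem_filter, Finset.mem_filter, Finset.mem_filter, Finset.mem_range, hT]
    tauto
  have hall := hs.allLeaves_even hv ht hidx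
  have hally : ∀ v ∈ allLeaves J, y v ∈ allLeaves J := by
    intro v hv'
    rw [mem_allLeaves] at hv' ⊢
    exact (hy.on v hv').2.1
  refine ⟨fun i i' => El J y idx j0 (q j0 i) (q j0 i'),
    ⟨fun i => hE.refl _, fun h => hE.symm h, fun h h' => hE.trans h h'⟩, ?_, ?_, ?_, ?_⟩
  · intro x _
    have h1 := hgen (allLeaves J) (fun v hv => mem_allLeaves.1 hv) hally hall x
    rw [Nat.even_iff, ← h1]
    congr 2
    ext i
    rw [Finset.mem_filter, Finset.mem_filter, mem_allLeaves]
    exact ⟨fun h => ⟨h.1, h.2, hleaf i h.1⟩, fun h => ⟨h.1, h.2.1⟩⟩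
  · intro x hx x' hx' hxx hrel
    have hx1 := (hT x).1 hx
    have hx1' := (hT x').1 hx'
    obtain ⟨k, k1, k2, k3, k4⟩ := el_chain hy hrel
    have hkl : ∀ v, v ∈ univ.filter (fun w => k w = 1) ↔ k v = 1 := by simp
    have e0 := hidx.on j0 hj0 x hx1.1
    have e0' := hidx.on j0 hj0 x' hx1'.1
    obtain ⟨c', hc', hW⟩ := hs.switch_leaves hv ht hy hidx (univ.filter (fun w => k w = 1))
      (fun v hv' => by
        rw [hkl] at hv'
        by_contra h
        rw [k2 v h] at hv'
        exact zero_ne_one hv')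
      (fun v hv' => by
        rw [hkl] at hv' ⊢
        rw [k1]; exact hv')
      (fun j hj => by
        rw [← f2_card_even, card_f2]
        by_cases hjj : j = j0
        · subst hjj
          have h5 : ∀ w, (if idx w = some j then k w else 0) =
              (if w = q j x then 1 else 0) + (if w = q j x' then 1 else 0) := by
            intro w
            by_cases h6 : idx w = some j
            · rw [if_pos h6]
              exact k3 w h6
            · rw [if_neg h6]
              have e1 : w ≠ q j x := fun h => h6 (h ▸ e0)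
              have e2 : w ≠ q j x' := fun h => h6 (h ▸ e0')
              simp [e1, e2]
          simp only [h5, Finset.sum_add_distrib, Finset.sum_ite_eq', Finset.mem_univ, if_true]
          exact f2_add_self 1
        · rw [k4 j hjj, e0, e0']
          have h6 : ¬ (some j0 = some j) := fun h => hjj (Option.some.inj h).symm
          simp [h6])
    have h7 : Wd n q f c' j0 = sw (Wd n q f c j0) t x x' := by
      rw [hW j0 hj0]
      refine swp_pair hx1.2 hx1'.2 fun i hi => ?_
      rw [decide_eq_true_eq, hkl]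
      constructor
      · rintro ⟨h8, h9⟩
        rw [k3 _ (hidx.on j0 hj0 i h8)] at h9
        by_contra h10
        push Not at h10
        have e1 : q j0 i ≠ q j0 x := fun h => h10.1 (hinj _ _ h8 hx1.1 h)
        have e2 : q j0 i ≠ q j0 x' := fun h => h10.2 (hinj _ _ h8 hx1'.1 h)
        simp [e1, e2] at h9
      · rintro (rfl | rfl)
        · refine ⟨hx1.1, ?_⟩
          rw [k3 _ e0]
          have e2 : q j0 i ≠ q j0 x' := fun h => hxx (hinj _ _ hx1.1 hx1'.1 h)
          simp [e2]
        · refine ⟨hx1'.1, ?_⟩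
          rw [k3 _ e0']
          have e2 : q j0 i ≠ q j0 x := fun h => hxx (hinj _ _ hx1.1 hx1'.1 h.symm)
          simp [e2]
    rw [← h7]
    exact hmin c' hc' j0 hj0
  · intro Kl h1 h2 h3 x _
    exact hgen Kl h1 h2 h3 x
  · intro x hx x' hx' hxx hrel hcl
    have hx1 := (hT x).1 hx
    have hx1' := (hT x').1 hx'
    let Kl : Finset V := (allLeaves J).filter (fun w => El J y idx j0 (q j0 x) w)
    have hKl : ∀ v, v ∈ Kl ↔ (nb J v).card = 1 ∧ El J y idx j0 (q j0 x) v := by
      intro v
      simp only [Kl, Finset.mem_filter, mem_allLeaves]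
    have hor : ∀ j ∈ S, j ≠ j0 → (∀ v, (nb J v).card = 1 → idx v = some j → v ∉ Kl) ∨
        (∀ v, (nb J v).card = 1 → idx v = some j → v ∈ Kl) := by
      intro j _ hjj
      by_cases h1 : ∃ v, (nb J v).card = 1 ∧ idx v = some j ∧ v ∈ Kl
      · right
        obtain ⟨v, h2, h3, h4⟩ := h1
        intro w h5 h6
        rw [hKl] at h4 ⊢
        refine ⟨h5, hE.trans h4.2 (Relation.EqvGen.rel _ _ ⟨h2, h5, Or.inr ⟨h3.trans h6.symm, ?_⟩⟩)⟩
        rw [h3]
        exact fun h => hjj (Option.some.inj h)
      · left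
        push Not at h1
        exact h1
    obtain ⟨c', hc', hW⟩ := hs.switch_leaves hv ht hy hidx Kl (fun v hv' => ((hKl v).1 hv').1)
      (fun v hv' => by
        rw [hKl] at hv' ⊢
        have h1 := (hy.on v hv'.1).2.1
        exact ⟨h1, hE.trans hv'.2 (Relation.EqvGen.rel _ _ ⟨hv'.1, h1, Or.inl rfl⟩)⟩)
      (fun j hj => by
        by_cases hjj : j = j0
        · subst hjj
          have h1 := hgen (allLeaves J) (fun v hv => mem_allLeaves.1 hv) hally hall x
          rw [hs.leaves_card hv ht hidx Kl (fun v hv' => ((hKl v).1 hv').1) hj, ← h1]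
          congr 2
          ext i
          simp only [Kl, Finset.mem_filter, Finset.mem_range, hT, mem_allLeaves]
          tauto
        · rcases hor j hj hjj with h1 | h1
          · have h2 : Kl.filter (fun v => idx v = some j) = ∅ := by
              rw [Finset.filter_eq_empty_iff]
              intro v hv' h3
              exact h1 v ((hKl v).1 hv').1 h3 hv'
            rw [h2]; rfl
          · have h2 : Kl.filter (fun v => idx v = some j) =
                (allLeaves J).filter (fun v => idx v = some j) := by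
              ext v
              simp only [Kl, Finset.mem_filter, mem_allLeaves]
              exact ⟨fun h => ⟨h.1.1, h.2⟩, fun h => ⟨(hKl v).1 (h1 v h.1 h.2), h.2⟩⟩
            rw [h2]
            exact hall j hj)
    refine ⟨c', hc', ?_, fun j hj hjj => ?_⟩
    · rw [hW j0 hj0]
      refine swp_pair hx1.2 hx1'.2 fun i hi => ?_
      rw [decide_eq_true_eq, hKl]
      constructor
      · rintro ⟨h8, h9, h10⟩
        exact hcl i ((hT i).2 ⟨h8, hi⟩) h10
      · rintro (rfl | rfl)
        · exact ⟨hx1.1, hleaf _ hx, hE.refl _⟩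
        · exact ⟨hx1'.1, hleaf _ hx', hrel⟩
    · rw [hW j hj]
      have hleafj : ∀ i, i < n j → Wd n q f c j i ≠ t → (nb J (q j i)).card = 1 :=
        fun i hi h => hs.leaf (c := c) (t := t) hj hi h
      rcases hor j hj hjj with h1 | h1
      · have h2 : swp (Wd n q f c j) t (fun i => decide (i < n j ∧ q j i ∈ Kl)) =
            Wd n q f c j := by
          funext i
          refine swp_not ?_
          rw [decide_eq_true_eq]
          rintro ⟨⟨h3, h4⟩, h5⟩
          exact h1 _ (hleafj i h3 h5) (hidx.on j hj i h3) h4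
        rw [h2]
      · refine pat_full ht (hs.word hv.1 hj).1 fun i hi => ?_
        by_cases h5 : Wd n q f c j i = t
        · rw [if_pos h5, swp_not (fun h => h.2 h5)]
        · rw [if_neg h5]
          refine swp_of ⟨?_, h5⟩
          rw [decide_eq_true_eq]
          exact ⟨hi, h1 _ (hleafj i hi h5) (hidx.on j hj i hi)⟩

end

end Pool.Agent.H66.SX
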