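import Pool.Agent.H66.SX.Multi

set_option autoImplicit false

/-!
Colouring the edges of one circuit.
-/

namespace Pool.Agent.H66.SX

open Finset
open Pool.Agent.TH505.OCDC Pool.Agent.TH505.SC

variable {V ι : Type}

section
variable [Fintype V] {G : SimpleGraph V} {n : ι → ℕ} {q f : ι → ℕ → V} (hs : Sys G n q f)
include hs

open scoped Classical in
/-- If the word of a circuit extends, then the circuit can be dropped. -/
theorem Sys.extend {S : Finset ι} {c : Sym2 V → ℕ} (hv : Valid G n q f S c) {j : ι}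
    (hj : j ∈ S) (h : ext (n j) (Wd n q f c j) = true) :
    ∃ c', Valid G n q f (S.erase j) c' := by
  obtain ⟨p, hp, hrun⟩ := ext_spec h
  have hq := hs.circ j
  set a := Wd n q f c j with ha
  have hw : ∀ i, i < n j → a i < 3 := (hs.word hv.1 hj).1
  have hspec := run_spec (n := n j) hp hw (by rw [hrun]; omega)
  let b : ℕ → ℕ := fun i => run a p (i + 1)
  have hbprev : ∀ i, i < n j → b (pv (n j) i) = run a p i := by
    intro i hi
    show run a p (pv (n j) i + 1) = run a p i
    unfold pv
    split_ifs with h0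
    · rw [h0, show n j - 1 + 1 = n j by omega, hrun]
      rfl
    · rw [show i - 1 + 1 = i by omega]
  let cs : Sym2 V → ℕ := Sym2.lift ⟨fun u v => if CE (q j) u v then cg (n j) (q j) b u v
      else c s(u, v), by
    intro u v
    have e1 : CE (q j) u v ↔ CE (q j) v u := ⟨CE.symm, CE.symm⟩
    show (if CE (q j) u v then cg (n j) (q j) b u v else c s(u, v)) =
      (if CE (q j) v u then cg (n j) (q j) b v u else c s(v, u))
    rw [if_congr e1 rfl rfl, cg_symm (n j) (q j) b u v, Sym2.eq_swap]⟩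
  have hcs : ∀ u v, cs s(u, v) = if CE (q j) u v then cg (n j) (q j) b u v else c s(u, v) :=
    fun _ _ => rfl
  have hnext : ∀ k, k < n j → cs s(q j k, q j (k + 1)) = b k := by
    intro k hk
    rw [hcs, if_pos ⟨k, Or.inl ⟨rfl, rfl⟩⟩, cg_val hq b hk]
  have hnb : ∀ i, i < n j → ∀ w, CE (q j) (q j i) w →
      (w = q j (i + 1) ∧ cs s(q j i, w) = run a p (i + 1)) ∨
      (w = q j (pv (n j) i) ∧ cs s(q j i, w) = run a p i) := by
    intro i hi w hw'
    rw [hq.ce_iff] at hw'
    rcases hw' with h1 | h1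
    · left
      refine ⟨h1, ?_⟩
      rw [h1, hnext i hi]
    · right
      have h2 : w = q j (pv (n j) i) := by
        rw [h1]
        apply hq.pred_congr
        rw [hq.prev, hq.q_pv hi]
      refine ⟨h2, ?_⟩
      rw [h2, ← hbprev i hi, Sym2.eq_swap]
      have := hnext (pv (n j) i) (hq.pv_lt hi)
      rw [hq.q_pv hi] at this
      exact this
  have hoffcol : ∀ u v, ¬ CE (q j) u v → cs s(u, v) = c s(u, v) := by
    intro u v huv
    rw [hcs, if_neg huv]
  have hind : ∀ u v, CE (q j) u v → ∃ i, i < n j ∧ u = q j i := by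
    intro u v huv
    obtain ⟨k, hk, ⟨h1, _⟩ | ⟨h1, _⟩⟩ := hq.ce_cases huv
    · exact ⟨k, hk, h1⟩
    · exact ⟨(k + 1) % n j, Nat.mod_lt _ hq.pos, by rw [h1]; exact hq.q_mod _⟩
  have hoff : ∀ u v, (OffS G q (S.erase j)).Adj u v → ¬ CE (q j) u v →
      (OffS G q S).Adj u v := by
    intro u v huv hce
    refine ⟨huv.1, ?_⟩
    intro j' hj'
    by_cases hjj : j' = j
    · rw [hjj]; exact hce
    · exact huv.2 j' (Finset.mem_erase.2 ⟨hjj, hj'⟩)
  have hfi : ∀ i w, (OffS G q S).Adj (q j i) w → w = f j i := by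
    intro i w hw'
    rw [← mem_nb, hs.nb_on hj i, Finset.mem_singleton] at hw'
    exact hw'
  refine ⟨cs, ⟨?_, ?_⟩, ?_⟩
  · intro u v huv
    by_cases hce : CE (q j) u v
    · obtain ⟨i, hi, rfl⟩ := hind u v hce
      have h1 := hspec i hi
      have h2 := hw i hi
      rcases hnb i hi v hce with ⟨_, h4⟩ | ⟨_, h4⟩
      · rw [h4, h1.2.2]; omega
      · rw [h4]; exact h1.1
    · rw [hoffcol u v hce]
      exact hv.1.lt u v (hoff u v huv hce)
  · intro u v w huv huw hvw
    by_cases hvc : CE (q j) u v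
    · obtain ⟨i, hi, rfl⟩ := hind u v hvc
      have h1 := hspec i hi
      have h2 := hw i hi
      by_cases hw' : CE (q j) (q j i) w
      · rcases hnb i hi v hvc with ⟨g1, g2⟩ | ⟨g1, g2⟩ <;>
          rcases hnb i hi w hw' with ⟨g3, g4⟩ | ⟨g3, g4⟩
        · exact absurd (g1.trans g3.symm) hvw
        · rw [g2, g4, h1.2.2]; omega
        · rw [g2, g4, h1.2.2]; omega
        · exact absurd (g1.trans g3.symm) hvw
      · have hwf : w = f j i := hfi i w (hoff _ _ huw hw')
        have e1 : cs s(q j i, w) = a i := by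
          rw [hoffcol _ _ hw', hwf, ha]
          unfold Wd W
          rw [if_pos hi]
        rw [e1]
        rcases hnb i hi v hvc with ⟨_, g2⟩ | ⟨_, g2⟩
        · rw [g2, h1.2.2]; omega
        · rw [g2]; exact h1.2.1
    · by_cases hw' : CE (q j) u w
      · obtain ⟨i, hi, rfl⟩ := hind u w hw'
        have h1 := hspec i hi
        have h2 := hw i hi
        have hvf : v = f j i := hfi i v (hoff _ _ huv hvc)
        have e1 : cs s(q j i, v) = a i := by
          rw [hoffcol _ _ hvc, hvf, ha]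
          unfold Wd W
          rw [if_pos hi]
        rw [e1]
        rcases hnb i hi w hw' with ⟨_, g2⟩ | ⟨_, g2⟩
        · rw [g2, h1.2.2]; omega
        · rw [g2]; exact fun h' => h1.2.1 h'.symm
      · rw [hoffcol _ _ hvc, hoffcol _ _ hw']
        exact hv.1.proper u v w (hoff _ _ huv hvc) (hoff _ _ huw hw') hvw
  · intro j' hj'
    have hjj : j' ≠ j := (Finset.mem_erase.1 hj').1
    have : Wd n q f cs j' = Wd n q f c j' := by
      funext i
      unfold Wd W
      by_cases hi : i < n j'
      · rw [if_pos hi, if_pos hi]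
        exact hoffcol _ _ (fun h' => hjj (hs.ce_idx h').symm)
      · rw [if_neg hi, if_neg hi]
    rw [this]
    exact hv.2 j' (Finset.mem_erase.1 hj').2

/-- A valid colouring for which no word extends, even after switching. -/
theorem Sys.minimal {S : Finset ι} {c : Sym2 V → ℕ} (hv : Valid G n q f S c) :
    ∃ S' : Finset ι, ∃ c', Valid G n q f S' c' ∧
      ∀ c'', Valid G n q f S' c'' → ∀ j ∈ S', ext (n j) (Wd n q f c'' j) = false := by
  classical
  have hex : ∃ m, ∃ S' : Finset ι, S'.card = m ∧ ∃ c', Valid G n q f S' c' :=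
    ⟨_, S, rfl, c, hv⟩
  let m := Nat.find hex
  obtain ⟨S', hS', c', hc'⟩ := Nat.find_spec hex
  refine ⟨S', c', hc', ?_⟩
  intro c'' hc'' j hj
  rw [Bool.eq_false_iff]
  intro h
  obtain ⟨c3, hc3⟩ := hs.extend hc'' hj h
  have h1 : (S'.erase j).card < Nat.find hex := by
    rw [← hS', Finset.card_erase_of_mem hj]
    have : 0 < S'.card := Finset.card_pos.2 ⟨j, hj⟩
    omega
  exact Nat.find_min hex h1 ⟨S'.erase j, rfl, c3, hc3⟩

end

end Pool.Agent.H66.SX
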