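import Pool.Agent.H66.SX.Final

set_option autoImplicit false

/-!
Short circuits which contain all vertices.
-/

namespace Pool.Agent.H66.SX

open Finset
open Pool.Agent.TH505.OCDC Pool.Agent.TH505.SC
open Pool.Agent.Helper879.ECD (F2 IsFlow f2_add_self f2_cases exists_flow)

variable {V : Type}

lemma out_pair (e : Sym2 V) : s(e.out.1, e.out.2) = e := by
  have h : Quot.mk _ (Quot.out e) = e := Quot.out_eq e
  exact h

/-- double counting over ordered pairs -/
lemma sum_pairs_f2 [Fintype V] (g : V → F2) (h : Sym2 V → F2) (hd : ∀ v, h s(v, v) = 0) :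
    ∑ e : Sym2 V, h e * (g e.out.1 + g e.out.2) = ∑ v, g v * ∑ w, h s(v, w) := by
  classical
  have h1 : ∑ v, g v * ∑ w, h s(v, w) = ∑ p : V × V, g p.1 * h s(p.1, p.2) := by
    rw [Fintype.sum_prod_type]
    exact sum_congr rfl (fun v _ => mul_sum _ _ _)
  rw [h1, ← Finset.sum_fiberwise (univ : Finset (V × V)) (fun p => s(p.1, p.2))]
  apply sum_congr rfl
  intro e _
  obtain ⟨u, v, he⟩ : ∃ u v, e = s(u, v) := ⟨_, _, (out_pair e).symm⟩
  have ho := out_pair e
  set u' := e.out.1 with hu'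
  set v' := e.out.2 with hv'
  rw [← ho]
  by_cases huv : u' = v'
  · have hz : h s(u', v') = 0 := by rw [huv]; exact hd _
    rw [hz, zero_mul]
    symm
    apply sum_eq_zero
    intro p hp
    rw [(mem_filter.1 hp).2, hz, mul_zero]
  · have hf : (univ.filter (fun p : V × V => s(p.1, p.2) = s(u', v'))) =
        {(u', v'), (v', u')} := by
      ext ⟨a, b⟩
      simp only [mem_filter, mem_univ, true_and, mem_insert, mem_singleton, Prod.mk.injEq,
        Sym2.eq_iff]
    rw [hf, sum_pair (by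
      intro h2
      exact huv (congrArg Prod.fst h2))]
    show h s(u', v') * (g u' + g v') = g u' * h s(u', v') + g v' * h s(v', u')
    rw [Sym2.eq_swap (a := v') (b := u')]
    ring

/-- A valid colouring for circuits which contain all vertices. -/
theorem valid_of_cuts [Fintype V] {ι : Type} [Fintype ι] {G : SimpleGraph V} {n : ι → ℕ}
    {q f : ι → ℕ → V} (hs : Sys G n q f) (hcov : ∀ v, ∃ j i, v = q j i)
    (hcut : ∀ X : Set V, (∀ j u v, CE (q j) u v → (u ∈ X ↔ v ∈ X)) →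
      {p : V × V | G.Adj p.1 p.2 ∧ p.1 ∈ X ∧ p.2 ∉ X}.ncard ≠ 1 ∧
      {p : V × V | G.Adj p.1 p.2 ∧ p.1 ∈ X ∧ p.2 ∉ X}.ncard ≠ 3) :
    ∃ c, Valid G n q f univ c := by
  classical
  choose idx pos hidx using hcov
  have hidx2 : ∀ j i, idx (q j i) = j := by
    intro j i
    exact (hs.disj _ _ _ _ (hidx (q j i))).symm
  have hce : ∀ j u v, CE (q j) u v → idx u = j ∧ idx v = j := by
    rintro j u v ⟨i, ⟨h1, h2⟩ | ⟨h1, h2⟩⟩
    · rw [h1, h2]; exact ⟨hidx2 _ _, hidx2 _ _⟩
    · rw [h1, h2]; exact ⟨hidx2 _ _, hidx2 _ _⟩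
  let H := OffS G q univ
  let a : Sym2 V → ι := fun e => idx e.out.1
  let b : Sym2 V → ι := fun e => if e ∈ H.edgeSet then idx e.out.2 else idx e.out.1
  have hab : ∀ e, (a e ≠ b e) → e ∈ H.edgeSet := by
    intro e h
    by_contra h'
    exact h (by show idx e.out.1 = if e ∈ H.edgeSet then _ else _; rw [if_neg h'])
  have hoff : ∀ u v, G.Adj u v → idx u ≠ idx v → H.Adj u v := by
    intro u v huv hne
    refine ⟨huv, ?_⟩
    intro j _ h
    obtain ⟨h1, h2⟩ := hce j u v h
    exact hne (h1.trans h2.symm)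
  have hcn : ∀ X : Finset ι, Pool.Agent.Helper879.ECD.cn a b univ X =
      {p : V × V | G.Adj p.1 p.2 ∧ p.1 ∈ {v | idx v ∈ X} ∧ p.2 ∉ {v | idx v ∈ X}}.ncard := by
    intro X
    symm
    unfold Pool.Agent.Helper879.ECD.cn
    rw [← Set.ncard_coe_finset]
    refine Set.ncard_congr (fun p _ => s(p.1, p.2)) ?_ ?_ ?_
    · rintro ⟨u, v⟩ ⟨h1, h2, h3⟩
      simp only [Set.mem_ofPred_eq] at h1 h2 h3
      have hne : idx u ≠ idx v := fun h => h3 (h ▸ h2)
      have hadj : s(u, v) ∈ H.edgeSet := hoff u v h1 hne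
      simp only [coe_filter, mem_univ, true_and, Set.mem_ofPred_eq]
      show ¬ (idx (s(u, v) : Sym2 V).out.1 ∈ X ↔
        (if s(u, v) ∈ H.edgeSet then idx (s(u, v) : Sym2 V).out.2 else
          idx (s(u, v) : Sym2 V).out.1) ∈ X)
      rw [if_pos hadj]
      have ho := out_pair s(u, v)
      rw [Sym2.eq_iff] at ho
      rcases ho with ⟨g1, g2⟩ | ⟨g1, g2⟩
      · rw [g1, g2]; tauto
      · rw [g1, g2]; tauto
    · rintro ⟨u, v⟩ ⟨u', v'⟩ ⟨_, h2, h3⟩ ⟨_, h2', h3'⟩ heq
      simp only [Set.mem_ofPred_eq] at h2 h3 h2' h3'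
      rw [Sym2.eq_iff] at heq
      simp only at heq
      rcases heq with ⟨g1, g2⟩ | ⟨g1, g2⟩
      · rw [g1, g2]
      · exfalso
        apply h3
        rw [g2]; exact h2'
    · intro e he
      simp only [coe_filter, mem_univ, true_and, Set.mem_ofPred_eq] at he
      have hne : a e ≠ b e := fun h => he (by rw [h])
      have heH := hab e hne
      have hb : b e = idx e.out.2 := if_pos heH
      have ha : a e = idx e.out.1 := rfl
      rw [hb, ha] at he
      have hadj : G.Adj e.out.1 e.out.2 := by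
        have h1 : s(e.out.1, e.out.2) ∈ H.edgeSet := by rw [out_pair]; exact heH
        exact h1.1
      by_cases h1 : idx e.out.1 ∈ X
      · refine ⟨(e.out.1, e.out.2), ⟨hadj, h1, ?_⟩, out_pair e⟩
        intro h2
        exact he ⟨fun _ => h2, fun _ => h1⟩
      · refine ⟨(e.out.2, e.out.1), ⟨hadj.symm, ?_, h1⟩, ?_⟩
        · by_contra h2
          exact he ⟨fun h => absurd h h1, fun h => absurd h h2⟩
        · show s(e.out.2, e.out.1) = e
          rw [Sym2.eq_swap]
          exact out_pair e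
  obtain ⟨ψ₁, ψ₂, hnz, hf1, hf2⟩ := exists_flow _ a b rfl (fun X => by
    rw [hcn X]
    apply hcut
    intro j u v h
    obtain ⟨h1, h2⟩ := hce j u v h
    simp only [Set.mem_ofPred_eq, h1, h2])
  have key : ∀ ψ : Sym2 V → F2, IsFlow a b ψ → ∀ j, ∑ i ∈ range (n j), ψ s(q j i, f j i) = 0 := by
    intro ψ hψ j
    let h : Sym2 V → F2 := fun e => if e ∈ H.edgeSet then ψ e else 0
    let g : V → F2 := fun v => if idx v = j then 1 else 0
    have h1 := hψ (fun i => if i = j then 1 else 0)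
    have h2 : ∑ e : Sym2 V, h e * (g e.out.1 + g e.out.2) = 0 := by
      rw [← h1]
      apply sum_congr rfl
      intro e _
      by_cases he : e ∈ H.edgeSet
      · have e1 : h e = ψ e := if_pos he
        have e2 : b e = idx e.out.2 := if_pos he
        rw [e1, e2]
      · have e1 : h e = 0 := if_neg he
        have e2 : b e = a e := if_neg he
        rw [e1, e2, zero_mul, f2_add_self, mul_zero]
    have hdiag : ∀ v, h s(v, v) = 0 := by
      intro v
      exact if_neg (fun h' => H.irrefl h')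
    rw [sum_pairs_f2 g h hdiag] at h2
    rw [← h2]
    have h3 : ∀ i, ∑ w, h s(q j i, w) = ψ s(q j i, f j i) := by
      intro i
      rw [Finset.sum_eq_single (f j i)]
      · exact if_pos (hs.adj_f (mem_univ j) i)
      · intro w _ hw
        apply if_neg
        intro h'
        have : w ∈ nb (OffS G q univ) (q j i) := mem_nb.2 h'
        rw [hs.nb_on (mem_univ j) i, mem_singleton] at this
        exact hw this
      · intro h'; exact absurd (mem_univ _) h'
    have h4 : ∑ v, g v * ∑ w, h s(v, w) = ∑ v ∈ univ.filter (fun v => idx v = j),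
        ∑ w, h s(v, w) := by
      rw [sum_filter]
      apply sum_congr rfl
      intro v _
      show (if idx v = j then (1 : F2) else 0) * _ = _
      split_ifs <;> simp
    rw [h4]
    refine Finset.sum_bij (fun i _ => q j i) ?_ ?_ ?_ ?_
    · intro i _
      rw [mem_filter]
      exact ⟨mem_univ _, hidx2 j i⟩
    · intro i hi i' hi' h5
      exact (hs.circ j).inj _ _ (mem_range.1 hi) (mem_range.1 hi') h5
    · intro v hv
      rw [mem_filter] at hv
      have h5 := hidx v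
      rw [hv.2] at h5
      refine ⟨pos v % n j, mem_range.2 (Nat.mod_lt _ (hs.circ j).pos), ?_⟩
      rw [← (hs.circ j).q_mod]
      exact h5.symm
    · intro i _
      exact (h3 i).symm
  refine ⟨_, valid_of_flow hs ψ₁ ψ₂ (fun u v _ => hnz _) ?_ (fun j => ⟨key _ hf1 j, key _ hf2 j⟩)⟩
  intro v hv
  exact absurd (hidx v) (hv _ _)

/-- propagation along a cycle -/
lemma mem_of_cycle {G : SimpleGraph V} {x : V} (Q : G.Walk x x) (X : Set V)
    (h : ∀ u v, s(u, v) ∈ Q.edges → (u ∈ X ↔ v ∈ X)) {w : V} (hw : w ∈ Q.support)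
    (hwX : w ∈ X) : ∀ v ∈ Q.support, v ∈ X := by
  have key : ∀ i, i ≤ Q.length → (Q.getVert i ∈ X ↔ x ∈ X) := by
    intro i
    induction i with
    | zero => intro _; rw [SimpleGraph.Walk.getVert_zero]
    | succ i ih =>
      intro hi
      rw [← ih (by omega)]
      exact (h _ _ ((SimpleGraph.Walk.mk_mem_edges_iff_exists Q).2 ⟨i, by omega, rfl⟩)).symm
  obtain ⟨i, hi, hi2⟩ := SimpleGraph.Walk.mem_support_iff_exists_getVert.1 hw
  have hx : x ∈ X := (key i hi2).1 (hi ▸ hwX)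
  intro v hv
  obtain ⟨k, hk, hk2⟩ := SimpleGraph.Walk.mem_support_iff_exists_getVert.1 hv
  rw [← hk]
  exact (key k hk2).2 hx

/-- a cycle inside `X` -/
lemma not_acyclic {G : SimpleGraph V} {x : V} {Q : G.Walk x x} (hQ : Q.IsCycle) (X : Set V)
    (h : ∀ v ∈ Q.support, v ∈ X) : ¬ (G.induce X).IsAcyclic := by
  intro hac
  have h1 : (Q.induce X h).IsCycle := by
    apply SimpleGraph.Walk.IsCycle.of_map (f := (SimpleGraph.Embedding.induce X).toHom)
    rw [SimpleGraph.Walk.map_induce]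
    exact hQ
  exact hac _ h1

open scoped Classical in
/-- The main theorem. -/
theorem many_short_circuits [Fintype V] (G : SimpleGraph V)
    (h3 : ∀ v, (G.neighborSet v).ncard = 3) (m : ℕ) (x : Fin m → V)
    (Q : ∀ i, G.Walk (x i) (x i)) (hQ : ∀ i, (Q i).IsCycle) (h5 : ∀ i, (Q i).length ≤ 6)
    (hd : ∀ i j, i ≠ j → ∀ v, v ∈ (Q i).support → v ∉ (Q j).support)
    (h : (∃ φ : Sym2 V → ZMod 2 × ZMod 2,
        (∀ v, ∑ w, (if G.Adj v w then φ s(v, w) else 0) = 0) ∧
        ∀ u v, G.Adj u v → (∀ i, s(u, v) ∉ (Q i).edges) → φ s(u, v) ≠ 0) ∨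
      ((∀ v, ∃ i, v ∈ (Q i).support) ∧
        ∀ X : Set V, (∀ i u v, s(u, v) ∈ (Q i).edges → (u ∈ X ↔ v ∈ X)) →
          {p : V × V | G.Adj p.1 p.2 ∧ p.1 ∈ X ∧ p.2 ∉ X}.ncard ≠ 1 ∧
          {p : V × V | G.Adj p.1 p.2 ∧ p.1 ∈ X ∧ p.2 ∉ X}.ncard ≠ 3) ∨
      ((∀ v, ∃ i, v ∈ (Q i).support) ∧
        ∀ X : Set V, {p : V × V | G.Adj p.1 p.2 ∧ p.1 ∈ X ∧ p.2 ∉ X}.ncard < 4 →
          (G.induce X).IsAcyclic ∨ (G.induce Xᶜ).IsAcyclic)) :
    ∃ C : Fin 5 → List (Σ v : V, G.Walk v v), (∀ i, ∀ c ∈ C i, c.2.IsCycle) ∧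
      (∀ i v, ((C i).map (fun c =>
        (c.2.darts.filter (fun d => decide (d.fst = v))).length)).sum ≤ 1) ∧
      ∀ u v, G.Adj u v → ∑ i, ((C i).map (fun c =>
        (c.2.darts.filter (fun d => decide (d.toProd = (u, v)))).length)).sum = 1 := by
  have hnb : ∀ v, (nb G v).card = 3 := by
    intro v
    rw [← h3 v, Set.ncard_eq_toFinset_card', ← SimpleGraph.neighborFinset_def]
    congr 1
    ext w
    rw [mem_nb, SimpleGraph.mem_neighborFinset]
  obtain ⟨f, hs⟩ := sys_of_cycles hnb Q hQ h5 hd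
  have hval : ∃ c, Valid G (fun i => (Q i).length)
      (fun i k => (Q i).getVert (k % (Q i).length)) f univ c := by
    have hb : ((∀ v, ∃ i, v ∈ (Q i).support) ∧
        ∀ X : Set V, (∀ i u v, s(u, v) ∈ (Q i).edges → (u ∈ X ↔ v ∈ X)) →
          {p : V × V | G.Adj p.1 p.2 ∧ p.1 ∈ X ∧ p.2 ∉ X}.ncard ≠ 1 ∧
          {p : V × V | G.Adj p.1 p.2 ∧ p.1 ∈ X ∧ p.2 ∉ X}.ncard ≠ 3) →
        ∃ c, Valid G (fun i => (Q i).length)
          (fun i k => (Q i).getVert (k % (Q i).length)) f univ c := by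
      rintro ⟨hcov, hcut⟩
      apply valid_of_cuts hs
      · intro v
        obtain ⟨i, hi⟩ := hcov v
        obtain ⟨k, hk⟩ := (mem_support_iff (hQ i) v).1 hi
        exact ⟨i, k, hk⟩
      · intro X hX
        apply hcut X
        intro i u v huv
        exact hX i u v ((ce_edges (hQ i) u v).1 huv)
    rcases h with ⟨φ, hφ0, hφ⟩ | h | ⟨hcov, hcyc⟩
    · have hsum : ∀ v, ∑ w ∈ nb G v, φ s(v, w) = 0 := by
        intro v
        rw [← hφ0 v, ← Finset.sum_filter]
        apply sum_congr _ (fun _ _ => rfl)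
        ext w
        rw [mem_nb, mem_filter]
        simp
      have hα : ∀ v, ∑ w ∈ nb G v, (φ s(v, w)).1 = 0 := by
        intro v
        have := congrArg Prod.fst (hsum v)
        rwa [Prod.fst_sum] at this
      have hβ : ∀ v, ∑ w ∈ nb G v, (φ s(v, w)).2 = 0 := by
        intro v
        have := congrArg Prod.snd (hsum v)
        rwa [Prod.snd_sum] at this
      refine ⟨_, valid_of_flow hs (fun e => (φ e).1) (fun e => (φ e).2) ?_
        (fun v _ => ⟨hα v, hβ v⟩) (fun j => ⟨on_of_vertex hs (fun e => (φ e).1) hα j,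
          on_of_vertex hs (fun e => (φ e).2) hβ j⟩)⟩
      intro u v huv
      have h1 := hφ u v huv.1 (fun i hi => huv.2 i (mem_univ i) ((ce_edges (hQ i) u v).1 hi))
      by_contra h2
      push Not at h2
      exact h1 (Prod.ext h2.1 h2.2)
    · exact hb h
    · apply hb
      refine ⟨hcov, ?_⟩
      intro X hX
      by_contra hcon
      have hlt : {p : V × V | G.Adj p.1 p.2 ∧ p.1 ∈ X ∧ p.2 ∉ X}.ncard < 4 ∧
          {p : V × V | G.Adj p.1 p.2 ∧ p.1 ∈ X ∧ p.2 ∉ X}.ncard ≠ 0 := by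
        rw [not_and_or, not_not, not_not] at hcon
        omega
      obtain ⟨⟨u, v⟩, hadj, hu, hv⟩ := Set.nonempty_of_ncard_ne_zero hlt.2
      obtain ⟨i, hi⟩ := hcov u
      obtain ⟨j, hj⟩ := hcov v
      rcases hcyc X hlt.1 with h1 | h1
      · exact not_acyclic (hQ i) X (mem_of_cycle (Q i) X (hX i) hi hu) h1
      · refine not_acyclic (hQ j) Xᶜ (mem_of_cycle (Q j) Xᶜ ?_ hj hv) h1
        intro a b hab
        exact not_congr (hX j a b hab)
  obtain ⟨c, hc⟩ := hval
  obtain ⟨g, hg⟩ := hs.five_of_valid hc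
  exact hg.families hnb

end Pool.Agent.H66.SX
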