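import Pool.Agent.H66.SX.Core

set_option autoImplicit false

/-!
The statements in terms of walks.
-/

namespace Pool.Agent.H66.SX

open Finset
open Pool.Agent.TH505.OCDC Pool.Agent.TH505.SC
open Pool.Agent.Helper879.ECD (F2 f2_add_self f2_cases)

variable {V : Type}

lemma getVert_mod {G : SimpleGraph V} {x : V} (Q : G.Walk x x) {i : ℕ} (hi : i < Q.length) :
    Q.getVert ((i + 1) % Q.length) = Q.getVert (i + 1) := by
  rcases Nat.lt_or_ge (i + 1) Q.length with h | h
  · rw [Nat.mod_eq_of_lt h]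
  · have : i + 1 = Q.length := by omega
    rw [this, Nat.mod_self, SimpleGraph.Walk.getVert_zero, SimpleGraph.Walk.getVert_length]

lemma ce_edges {G : SimpleGraph V} {x : V} {Q : G.Walk x x} (hQ : Q.IsCycle) (u v : V) :
    s(u, v) ∈ Q.edges ↔ CE (fun i => Q.getVert (i % Q.length)) u v := by
  have h3 := hQ.three_le_length
  rw [SimpleGraph.Walk.mk_mem_edges_iff_exists]
  constructor
  · rintro ⟨i, hi, h⟩
    rw [Sym2.eq_iff] at h
    refine ⟨i, ?_⟩
    simp only [Nat.mod_eq_of_lt hi, getVert_mod Q hi]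
    rcases h with ⟨h1, h2⟩ | ⟨h1, h2⟩
    · exact Or.inl ⟨h1.symm, h2.symm⟩
    · exact Or.inr ⟨h2.symm, h1.symm⟩
  · rintro ⟨i, h⟩
    have hlt : i % Q.length < Q.length := Nat.mod_lt _ (by omega)
    refine ⟨i % Q.length, hlt, ?_⟩
    have e : Q.getVert ((i + 1) % Q.length) = Q.getVert (i % Q.length + 1) := by
      rw [← getVert_mod Q hlt, Nat.mod_add_mod]
    simp only [e] at h
    rw [Sym2.eq_iff]
    rcases h with ⟨h1, h2⟩ | ⟨h1, h2⟩
    · exact Or.inl ⟨h1.symm, h2.symm⟩
    · exact Or.inr ⟨h2.symm, h1.symm⟩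

lemma mem_support_iff {G : SimpleGraph V} {x : V} {Q : G.Walk x x} (hQ : Q.IsCycle) (v : V) :
    v ∈ Q.support ↔ ∃ i, v = Q.getVert (i % Q.length) := by
  have h3 := hQ.three_le_length
  constructor
  · intro hu
    obtain ⟨i, hi, hi2⟩ := SimpleGraph.Walk.mem_support_iff_exists_getVert.1 hu
    rcases Nat.lt_or_ge i Q.length with h | h
    · exact ⟨i, by rw [Nat.mod_eq_of_lt h, hi]⟩
    · refine ⟨0, ?_⟩
      have : i = Q.length := by omega
      rw [← hi, this, Nat.zero_mod, SimpleGraph.Walk.getVert_zero,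
        SimpleGraph.Walk.getVert_length]
  · rintro ⟨i, rfl⟩
    exact SimpleGraph.Walk.getVert_mem_support _ _

theorem sys_of_cycles [Fintype V] {ι : Type} {G : SimpleGraph V} (hnb : ∀ v, (nb G v).card = 3)
    {x : ι → V} (Q : ∀ i, G.Walk (x i) (x i)) (hQ : ∀ i, (Q i).IsCycle)
    (h5 : ∀ i, (Q i).length ≤ 6)
    (hd : ∀ i j, i ≠ j → ∀ v, v ∈ (Q i).support → v ∉ (Q j).support) :
    ∃ f, Sys G (fun i => (Q i).length) (fun i k => (Q i).getVert (k % (Q i).length)) f := by
  classical
  have hc : ∀ j, Circ G (Q j).length (fun k => (Q j).getVert (k % (Q j).length)) :=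
    fun j => circ_of_cycle (hQ j)
  have h1 : ∀ j i, ∃ w, nb (Off G (fun k => (Q j).getVert (k % (Q j).length)))
      ((Q j).getVert (i % (Q j).length)) = {w} := fun j i =>
    Finset.card_eq_one.1 (nb_off_card (hc j) hnb i)
  choose f hf using h1
  refine ⟨f, hnb, hc, h5, ?_, hf⟩
  intro j j' a b hab
  by_contra hne
  exact hd j j' hne ((Q j).getVert (a % (Q j).length))
    ((mem_support_iff (hQ j) _).2 ⟨a, rfl⟩)
    ((mem_support_iff (hQ j') _).2 ⟨b, hab⟩)

/-- colour of a nonzero pair -/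
def colr (a b : F2) : ℕ := if b = 0 then 0 else if a = 0 then 1 else 2

lemma colr_lt : ∀ a b : F2, colr a b < 3 := by decide

lemma colr_inj : ∀ a b a' b' : F2, (a ≠ 0 ∨ b ≠ 0) → (a' ≠ 0 ∨ b' ≠ 0) →
    colr a b = colr a' b' → a = a' ∧ b = b' := by decide

lemma colr_zero : ∀ a b : F2, (a ≠ 0 ∨ b ≠ 0) →
    ((if colr a b ≠ 0 then (1 : F2) else 0) = b) := by decide

lemma colr_one : ∀ a b : F2, (a ≠ 0 ∨ b ≠ 0) →
    ((if colr a b ≠ 1 then (1 : F2) else 0) = a) := by decide

lemma colr_two : ∀ a b : F2, (a ≠ 0 ∨ b ≠ 0) →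
    ((if colr a b ≠ 2 then (1 : F2) else 0) = a + b) := by decide

lemma cn_cast (a : ℕ → ℕ) (s k : ℕ) :
    (cn a s k : F2) = ∑ i ∈ range k, if a i ≠ s then (1 : F2) else 0 := by
  induction k with
  | zero => simp [cn]
  | succ k ih =>
    rw [Finset.sum_range_succ, ← ih]
    show ((cn a s k + (bif a k == s then 0 else 1) : ℕ) : F2) = _
    by_cases h : a k = s
    · simp [h]
    · have : (a k == s) = false := by simpa using h
      rw [this]
      simp [h]

/-- A valid colouring from a flow. -/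
theorem valid_of_flow [Fintype V] {ι : Type} [Fintype ι] {G : SimpleGraph V} {n : ι → ℕ}
    {q f : ι → ℕ → V} (hs : Sys G n q f) (α β : Sym2 V → F2)
    (hnz : ∀ u v, (OffS G q univ).Adj u v → α s(u, v) ≠ 0 ∨ β s(u, v) ≠ 0)
    (hoff : ∀ v, (∀ j i, v ≠ q j i) →
      ∑ w ∈ nb G v, α s(v, w) = 0 ∧ ∑ w ∈ nb G v, β s(v, w) = 0)
    (hon : ∀ j, ∑ i ∈ range (n j), α s(q j i, f j i) = 0 ∧
      ∑ i ∈ range (n j), β s(q j i, f j i) = 0) :
    Valid G n q f univ (fun e => colr (α e) (β e)) := by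
  classical
  refine ⟨⟨fun u v _ => colr_lt _ _, ?_⟩, ?_⟩
  · intro u v w huv huw hvw heq
    by_cases h : ∃ j i, u = q j i
    · obtain ⟨j, i, rfl⟩ := h
      have e1 := hs.nb_on (mem_univ j) i
      have e2 : v ∈ nb (OffS G q univ) (q j i) := mem_nb.2 huv
      have e3 : w ∈ nb (OffS G q univ) (q j i) := mem_nb.2 huw
      rw [e1, mem_singleton] at e2 e3
      exact hvw (e2.trans e3.symm)
    · push Not at h
      obtain ⟨s1, s2⟩ := hoff u h
      have hv : v ∈ nb G u := mem_nb.2 huv.1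
      have hw : w ∈ (nb G u).erase v := mem_erase.2 ⟨hvw.symm, mem_nb.2 huw.1⟩
      have hcard : (((nb G u).erase v).erase w).card = 1 := by
        rw [card_erase_of_mem hw, card_erase_of_mem hv, hs.three u]
      obtain ⟨z, hz⟩ := card_eq_one.1 hcard
      have hzm : z ∈ ((nb G u).erase v).erase w := by rw [hz]; exact mem_singleton_self z
      have hzadj : G.Adj u z := mem_nb.1 (mem_of_mem_erase (mem_of_mem_erase hzm))
      have hzo : (OffS G q univ).Adj u z := by
        refine ⟨hzadj, ?_⟩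
        rintro j _ ⟨i, ⟨h1, _⟩ | ⟨h1, _⟩⟩
        · exact h j _ h1
        · exact h j _ h1
      rw [← Finset.add_sum_erase _ _ hv, ← Finset.add_sum_erase _ _ hw, hz, sum_singleton]
        at s1 s2
      obtain ⟨g1, g2⟩ := colr_inj _ _ _ _ (hnz u v huv) (hnz u w huw) heq
      rw [g1, ← add_assoc, f2_add_self, zero_add] at s1
      rw [g2, ← add_assoc, f2_add_self, zero_add] at s2
      rcases hnz u z hzo with h' | h'
      · exact h' s1
      · exact h' s2
  · intro j _ s hsl
    obtain ⟨s1, s2⟩ := hon j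
    have hW : ∀ i ∈ range (n j), Wd n q f (fun e => colr (α e) (β e)) j i =
        colr (α s(q j i, f j i)) (β s(q j i, f j i)) := by
      intro i hi
      unfold Wd W
      rw [if_pos (mem_range.1 hi)]
    have hne : ∀ i, α s(q j i, f j i) ≠ 0 ∨ β s(q j i, f j i) ≠ 0 := fun i =>
      hnz _ _ (hs.adj_f (mem_univ j) i)
    have key : (cn (Wd n q f (fun e => colr (α e) (β e)) j) s (n j) : F2) = 0 := by
      rw [cn_cast]
      interval_cases s
      · refine Eq.trans (sum_congr rfl (fun i hi => ?_)) s2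
        rw [hW i hi]; exact colr_zero _ _ (hne i)
      · refine Eq.trans (sum_congr rfl (fun i hi => ?_)) s1
        rw [hW i hi]; exact colr_one _ _ (hne i)
      · have s3 : ∑ i ∈ range (n j), (α s(q j i, f j i) + β s(q j i, f j i)) = 0 := by
          rw [sum_add_distrib, s1, s2, add_zero]
        refine Eq.trans (sum_congr rfl (fun i hi => ?_)) s3
        rw [hW i hi]; exact colr_two _ _ (hne i)
    exact Nat.even_iff.1 ((ZMod.natCast_eq_zero_iff_even).1 key)

lemma sum_shift {n : ℕ} (hn : 0 < n) (e : ℕ → F2) (he : ∀ i, e (i + n) = e i) :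
    ∑ i ∈ range n, e (i + n - 1) = ∑ i ∈ range n, e i := by
  obtain ⟨m, rfl⟩ : ∃ m, n = m + 1 := ⟨n - 1, by omega⟩
  rw [sum_range_succ', sum_range_succ]
  congr 1
  · apply sum_congr rfl
    intro i _
    rw [show i + 1 + (m + 1) - 1 = i + (m + 1) by omega, he]
  · rw [show 0 + (m + 1) - 1 = m by omega]

/-- the vertex condition gives the circuit condition -/
lemma on_of_vertex [Fintype V] {ι : Type} {G : SimpleGraph V} {n : ι → ℕ}
    {q f : ι → ℕ → V} (hs : Sys G n q f) (α : Sym2 V → F2)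
    (h : ∀ v, ∑ w ∈ nb G v, α s(v, w) = 0) (j : ι) :
    ∑ i ∈ range (n j), α s(q j i, f j i) = 0 := by
  classical
  have hc := hs.circ j
  have hn : ∀ i, nb G (q j i) = {q j (i + 1), q j (i + n j - 1), f j i} := by
    intro i
    ext w
    have h1 : w ∈ nb (Off G (q j)) (q j i) ↔ w = f j i := by
      rw [hs.third j i, mem_singleton]
    rw [mem_nb, off_adj, hc.ce_iff] at h1
    rw [mem_nb, mem_insert, mem_insert, mem_singleton]
    constructor
    · intro h2
      by_cases h3 : w = q j (i + 1) ∨ w = q j (i + n j - 1)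
      · rcases h3 with h3 | h3
        · exact Or.inl h3
        · exact Or.inr (Or.inl h3)
      · exact Or.inr (Or.inr (h1.1 ⟨h2, h3⟩))
    · rintro (h2 | h2 | h2)
      · rw [h2]; exact hc.adj i
      · rw [h2]; exact hc.adj_prev i
      · exact (h1.2 h2).1
  have hne : ∀ i, f j i ≠ q j (i + 1) ∧ f j i ≠ q j (i + n j - 1) := by
    intro i
    have h1 : f j i ∈ nb (Off G (q j)) (q j i) := by
      rw [hs.third j i]; exact mem_singleton_self _
    rw [mem_nb, off_adj, hc.ce_iff] at h1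
    exact ⟨fun h => h1.2 (Or.inl h), fun h => h1.2 (Or.inr h)⟩
  have hv : ∀ i, α s(q j i, f j i) = α s(q j i, q j (i + 1)) +
      α s(q j (i + n j - 1), q j (i + n j - 1 + 1)) := by
    intro i
    have h1 := h (q j i)
    rw [hn i, sum_insert, sum_insert, sum_singleton] at h1
    · have h2 : s(q j (i + n j - 1), q j (i + n j - 1 + 1)) = s(q j i, q j (i + n j - 1)) := by
        rw [hc.prev, Sym2.eq_swap]
      rw [h2]
      generalize α s(q j i, q j (i + 1)) = A at *
      generalize α s(q j i, q j (i + n j - 1)) = B at *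
      generalize α s(q j i, f j i) = C at *
      revert h1 A B C
      decide
    · rw [mem_singleton]
      exact (hne i).2.symm
    · rw [mem_insert, mem_singleton]
      rintro (h2 | h2)
      · exact hc.next_ne_prev i h2
      · exact (hne i).1 h2.symm
  rw [sum_congr rfl (fun i _ => hv i), sum_add_distrib,
    sum_shift hc.pos (fun i => α s(q j i, q j (i + 1))), f2_add_self]
  intro i
  have e1 : q j (i + n j) = q j i := hc.per i
  have e2 : q j (i + n j + 1) = q j (i + 1) := by
    rw [show i + n j + 1 = i + 1 + n j by omega]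
    exact hc.per (i + 1)
  simp only [e1, e2]

end Pool.Agent.H66.SX
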