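import Pool.Agent.H66.SX.Blocks

set_option autoImplicit false

/-!
Good colourings: all words that do not extend are good, and the blocks have two elements.
-/

namespace Pool.Agent.H66.SX

open Finset
open Pool.Agent.TH505.OCDC Pool.Agent.TH505.SC
open Pool.Agent.Helper879.ECD (F2 IsFlow f2_add_self f2_cases)

variable {V ι : Type}

section
variable [Fintype V] {G : SimpleGraph V} {n : ι → ℕ} {q f : ι → ℕ → V} (hs : Sys G n q f)
include hs

lemma Sys.exists_chains {S : Finset ι} {c : Sym2 V → ℕ} (hv : Valid G n q f S c) {t : ℕ}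
    (ht : t < 3) : ∃ y : V → V, Chains (Jg (OffS G q S) c t) y := by
  obtain ⟨y, h1, h2, h3⟩ := exists_partner (Jg (OffS G q S) c t) (fun v => by
    rcases hs.deg_cases hv.1 ht v with ⟨_, h⟩ | ⟨j, _, i, _, _, ⟨_, h⟩ | ⟨_, h⟩⟩ <;> omega)
  exact ⟨y, h1, h3⟩

lemma Sys.exists_index (S : Finset ι) : ∃ idx : V → Option ι, Index n q S idx := by
  obtain ⟨idx, i1, _⟩ := hs.exists_fun S (fun j _ => some j) (none : Option ι)
  exact ⟨idx, ⟨i1⟩⟩

open scoped Classical in
/-- a colouring with good words only -/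
theorem Sys.exists_good {S : Finset ι} {c : Sym2 V → ℕ} (hv : Valid G n q f S c)
    (hmin : ∀ c', Valid G n q f S c' → ∀ j ∈ S, ext (n j) (Wd n q f c' j) = false) :
    ∃ c', Valid G n q f S c' ∧ ∀ j ∈ S, pat (n j) (Wd n q f c' j) = true := by
  obtain ⟨idx, hidx⟩ := hs.exists_index S
  have hex : ∃ N, ∃ c', Valid G n q f S c' ∧
      (S.filter (fun j => pat (n j) (Wd n q f c' j) = false)).card = N := ⟨_, c, hv, rfl⟩
  obtain ⟨c', hc', hN⟩ := Nat.find_spec hex
  refine ⟨c', hc', ?_⟩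
  by_contra hcon
  push Not at hcon
  obtain ⟨j0, hj0, hpat⟩ := hcon
  replace hpat := Bool.eq_false_iff.2 hpat
  have hw := hs.word hc'.1 hj0
  obtain ⟨t, x, y', ht, hx, hy', hxy, hax, hay, hsw, hforced⟩ :=
    bad_sound (hs.six j0) hw (hc'.2 j0 hj0) (hmin c' hc' j0 hj0) hpat
  obtain ⟨y, hy⟩ := hs.exists_chains hc' ht
  have hT : ∀ i, i ∈ (range (n j0)).filter (fun i => Wd n q f c' j0 i ≠ t) ↔
      i < n j0 ∧ Wd n q f c' j0 i ≠ t := by
    intro i; simp
  generalize (range (n j0)).filter (fun i => Wd n q f c' j0 i ≠ t) = T at hT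
  obtain ⟨rel, hr, hev, hne, _, hlobe⟩ := hs.blocks hc' hmin ht hy hidx hj0 T hT
  have hpairs : ∀ m : ℕ → ℕ, (∀ i ∈ T, m i ∈ T ∧ m i ≠ i ∧ m (m i) = i ∧ rel i (m i)) →
      m x = y' := by
    intro m hm
    rcases hforced m (fun i hi hai => by
      obtain ⟨g1, g2, g3, _⟩ := hm i ((hT i).2 ⟨hi, hai⟩)
      rw [hT] at g1
      exact ⟨g1.1, g1.2, g2, g3⟩) with ⟨i, hi, hai, he⟩ | h
    · exfalso
      have hiT := (hT i).2 ⟨hi, hai⟩
      obtain ⟨g1, g2, g3, g4⟩ := hm i hiT
      rw [hne i hiT (m i) g1 g2.symm g4] at he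
      exact absurd he (by simp)
    · exact h
  have hxT := (hT x).2 ⟨hx, hax⟩
  have hyT := (hT y').2 ⟨hy', hay⟩
  have hrel : rel x y' := by
    obtain ⟨m, hm⟩ := exists_matching rel hr _ T rfl hev
    rw [← hpairs m hm]
    exact (hm x hxT).2.2.2
  have hcl : ∀ i ∈ T, rel x i → i = x ∨ i = y' := by
    intro i hi hri
    by_cases hix : i = x
    · exact Or.inl hix
    · right
      obtain ⟨m, hm, hmx⟩ := exists_matching_pair rel hr T hev hxT hi (fun h => hix h.symm) hri
      rw [← hmx]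
      exact hpairs m hm
  obtain ⟨c2, hc2, hW, hoth⟩ := hlobe x hxT y' hyT hxy hrel hcl
  have hp2 : pat (n j0) (Wd n q f c2 j0) = true := by
    rw [hW]
    rcases hsw with h | h
    · rw [← hW, hmin c2 hc2 j0 hj0] at h
      exact absurd h (by simp)
    · exact h
  have hlt : (S.filter (fun j => pat (n j) (Wd n q f c2 j) = false)).card <
      (S.filter (fun j => pat (n j) (Wd n q f c' j) = false)).card := by
    apply Finset.card_lt_card
    rw [Finset.ssubset_iff_of_subset]
    · refine ⟨j0, Finset.mem_filter.2 ⟨hj0, hpat⟩, ?_⟩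
      rw [Finset.mem_filter, hp2]
      simp
    · intro j hj
      rw [Finset.mem_filter] at hj ⊢
      refine ⟨hj.1, ?_⟩
      by_cases hjj : j = j0
      · rw [hjj, hp2] at hj
        exact absurd hj.2 (by simp)
      · rw [← hoth j hj.1 hjj]
        exact hj.2
  rw [hN] at hlt
  exact Nat.find_min hex hlt ⟨c2, hc2, rfl⟩

open scoped Classical in
/-- **No twist.** -/
theorem Sys.untwisted {S : Finset ι} {c : Sym2 V → ℕ} (hv : Valid G n q f S c)
    (hmin : ∀ c', Valid G n q f S c' → ∀ j ∈ S, ext (n j) (Wd n q f c' j) = false)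
    (hgood : ∀ j ∈ S, pat (n j) (Wd n q f c j) = true) {t : ℕ} (ht : t < 3)
    {y : V → V} (hy : Chains (Jg (OffS G q S) c t) y) {idx : V → Option ι}
    (hidx : Index n q S idx) (Kl : Finset V)
    (hKl : ∀ v ∈ Kl, (nb (Jg (OffS G q S) c t) v).card = 1) (hyK : ∀ v ∈ Kl, y v ∈ Kl)
    (hev : ∀ j ∈ S, (Kl.filter (fun v => idx v = some j)).card % 2 = 0) {j : ι} (hj : j ∈ S) :
    (∑ i ∈ (range (n j)).filter (fun i => q j i ∈ Kl ∧ Wd n q f c j i ≠ t),
        cn (Wd n q f c j) t i +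
      ((range (n j)).filter (fun i => q j i ∈ Kl ∧ Wd n q f c j i ≠ t)).card / 2) % 2 = 0 := by
  have hw := hs.word hv.1 hj
  have hgd : good (ext (n j)) (n j) (Wd n q f c j) = true := by
    have h1 := chk1_all (hs.circ j).three (hs.six j) hw
    unfold chk1 at h1
    rw [hgood j hj, hmin c hv j hj] at h1
    simpa using h1
  -- matchings for all colours
  have hall : ∀ s, s < 3 → ∃ m : ℕ → ℕ, Pairs (n j) (Wd n q f c j) s m ∧
      ∀ i, i < n j → Wd n q f c j i ≠ s →
        ext (n j) (sw (Wd n q f c j) s i (m i)) = false := by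
    intro s hs3
    obtain ⟨y2, hy2⟩ := hs.exists_chains hv hs3
    obtain ⟨rel, hr, he, hne, _, _⟩ := hs.blocks hv hmin hs3 hy2 hidx hj
      ((range (n j)).filter (fun i => Wd n q f c j i ≠ s)) (by intro i; simp)
    obtain ⟨m, hm⟩ := exists_matching rel hr _ _ rfl he
    refine ⟨m, fun i hi hai => ?_, fun i hi hai => ?_⟩
    · obtain ⟨g1, g2, g3, _⟩ := hm i (by simp [hi, hai])
      simp only [Finset.mem_filter, Finset.mem_range] at g1
      exact ⟨g1.1, g1.2, g2, g3⟩
    · obtain ⟨g1, g2, g3, g4⟩ := hm i (by simp [hi, hai])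
      exact hne i (by simp [hi, hai]) (m i) g1 g2.symm g4
  choose m0 hm0 hm0' using hall
  have hT : ∀ i, i ∈ (range (n j)).filter (fun i => Wd n q f c j i ≠ t) ↔
      i < n j ∧ Wd n q f c j i ≠ t := by
    intro i; simp
  obtain ⟨rel, hr, he, hne, hK, _⟩ := hs.blocks hv hmin ht hy hidx hj _ hT
  set T := (range (n j)).filter (fun i => Wd n q f c j i ≠ t) with hTdef
  have hodd : ∀ x ∈ T, ∀ x' ∈ T, x ≠ x' → rel x x' →
      (cn (Wd n q f c j) t x + cn (Wd n q f c j) t x') % 2 = 1 := by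
    intro x hx x' hx' hxx hrel
    obtain ⟨m1, hm1, hmx⟩ := exists_matching_pair rel hr T he hx hx' hxx hrel
    let m : ℕ → ℕ → ℕ := fun s => if h : s < 3 then (if s = t then m1 else m0 s h) else m1
    have hmt : m t = m1 := by simp [m, ht]
    rcases good_sound hgd m (by
      intro s hs3
      by_cases hst : s = t
      · subst hst
        rw [hmt]
        intro i hi hai
        obtain ⟨g1, g2, g3, _⟩ := hm1 i ((hT i).2 ⟨hi, hai⟩)
        rw [hT] at g1
        exact ⟨g1.1, g1.2, g2, g3⟩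
      · have : m s = m0 s hs3 := by simp [m, hs3, hst]
        rw [this]
        exact hm0 s hs3) with h | ⟨s, i, hs3, hi, hai, h⟩
    · have h1 := h t ht x ((hT x).1 hx).1 ((hT x).1 hx).2
      rw [hmt, hmx, cn_succ, cn_succ, if_neg ((hT x).1 hx).2, if_neg ((hT x').1 hx').2] at h1
      omega
    · exfalso
      by_cases hst : s = t
      · subst hst
        rw [hmt] at h
        have hiT := (hT i).2 ⟨hi, hai⟩
        obtain ⟨g1, g2, g3, g4⟩ := hm1 i hiT
        rw [hne i hiT (m1 i) g1 g2.symm g4] at h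
        exact absurd h (by simp)
      · have h2 : m s = m0 s hs3 := by simp [m, hs3, hst]
        rw [h2, hm0' s hs3 i hi hai] at h
        exact absurd h (by simp)
  obtain ⟨m, hm⟩ := exists_matching rel hr _ T rfl he
  have hclass : ∀ x ∈ T, ∀ i ∈ T, rel x i → i = x ∨ i = m x := by
    intro x hx i hi hri
    by_contra hcon
    push Not at hcon
    obtain ⟨g1, g2, g3, g4⟩ := hm x hx
    have a1 := hodd x hx i hi hcon.1.symm hri
    have a2 := hodd x hx (m x) g1 g2.symm g4
    have a3 := hodd i hi (m x) g1 hcon.2 (hr.trans (hr.symm hri) g4)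
    omega
  have hfil : (range (n j)).filter (fun i => q j i ∈ Kl ∧ Wd n q f c j i ≠ t) =
      T.filter (fun i => q j i ∈ Kl) := by
    ext i
    simp only [Finset.mem_filter, Finset.mem_range, hTdef]
    tauto
  rw [hfil]
  refine (sum_pairs (T.filter (fun i => q j i ∈ Kl)) (cn (Wd n q f c j) t) m ?_).2
  intro x hx
  rw [Finset.mem_filter] at hx
  obtain ⟨g1, g2, g3, g4⟩ := hm x hx.1
  refine ⟨?_, g2, g3, hodd x hx.1 (m x) g1 g2.symm g4⟩
  rw [Finset.mem_filter]
  refine ⟨g1, ?_⟩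
  by_contra hcon
  have h1 := hK Kl hKl hyK hev x hx.1
  have h2 : T.filter (fun i => rel x i ∧ q j i ∈ Kl) = {x} := by
    ext i
    rw [Finset.mem_filter, Finset.mem_singleton]
    constructor
    · rintro ⟨h3, h4, h5⟩
      rcases hclass x hx.1 i h3 h4 with h6 | h6
      · exact h6
      · rw [h6] at h5
        exact absurd h5 hcon
    · rintro rfl
      exact ⟨hx.1, hr.refl _, hx.2⟩
  rw [h2] at h1
  simp at h1

end

end Pool.Agent.H66.SX
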