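import Pool.Graph.R_seed8.TH505.SC.Check

set_option autoImplicit false

/-!
The finite part: switching a colour word around a circuit of length at most six.
-/

namespace Pool.Agent.H66.SX

open Pool.Agent.TH505.SC

/-- the word after a switch of the two colours different from `t` at the positions in `U` -/
def swp (a : ℕ → ℕ) (t : ℕ) (U : ℕ → Bool) : ℕ → ℕ :=
  fun x => bif (U x && !(a x == t)) then 3 - t - a x else a x

/-- number of switched positions below `i` -/
def cU (a : ℕ → ℕ) (t : ℕ) (U : ℕ → Bool) : ℕ → ℕ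
  | 0 => 0
  | i + 1 => cU a t U i + bif (U i && !(a i == t)) then 1 else 0

/-- sum of the ranks of the switched positions below `i` -/
def sU (a : ℕ → ℕ) (t : ℕ) (U : ℕ → Bool) : ℕ → ℕ
  | 0 => 0
  | i + 1 => sU a t U i + bif (U i && !(a i == t)) then cn a t i else 0

/-- all three parities are even -/
def Par (n : ℕ) (a : ℕ → ℕ) : Prop := ∀ s, s < 3 → cn a s n % 2 = 0

def par (n : ℕ) (a : ℕ → ℕ) : Bool :=
  (cn a 0 n % 2 == 0) && ((cn a 1 n % 2 == 0) && (cn a 2 n % 2 == 0))

lemma par_iff (n : ℕ) (a : ℕ → ℕ) : par n a = true ↔ Par n a := by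
  unfold par Par
  simp only [Bool.and_eq_true, beq_iff_eq]
  constructor
  · rintro ⟨h0, h1, h2⟩ s hs
    interval_cases s
    · exact h0
    · exact h1
    · exact h2
  · intro h
    exact ⟨h 0 (by norm_num), h 1 (by norm_num), h 2 (by norm_num)⟩

lemma swp_of {a : ℕ → ℕ} {t : ℕ} {U : ℕ → Bool} {i : ℕ} (h : U i = true ∧ a i ≠ t) :
    swp a t U i = 3 - t - a i := by
  unfold swp
  have e1 : (a i == t) = false := by simpa using h.2
  rw [e1, h.1]
  rfl

lemma swp_not {a : ℕ → ℕ} {t : ℕ} {U : ℕ → Bool} {i : ℕ} (h : ¬ (U i = true ∧ a i ≠ t)) :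
    swp a t U i = a i := by
  unfold swp
  have e1 : (U i && !(a i == t)) = false := by
    by_cases hU : U i = true
    · have h2 : a i = t := by
        by_contra h'
        exact h ⟨hU, h'⟩
      rw [h2]
      simp
    · rw [Bool.not_eq_true] at hU
      rw [hU]; rfl
  rw [e1]
  rfl

lemma cn_succ (a : ℕ → ℕ) (j i : ℕ) : cn a j (i + 1) = cn a j i + if a i = j then 0 else 1 := by
  show cn a j i + (bif a i == j then 0 else 1) = _
  by_cases h : a i = j
  · rw [h]; simp
  · have : (a i == j) = false := by simpa using h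
    rw [this]; simp [h]

lemma cU_succ (a : ℕ → ℕ) (t : ℕ) (U : ℕ → Bool) (i : ℕ) :
    cU a t U (i + 1) = cU a t U i + if U i = true ∧ a i ≠ t then 1 else 0 := by
  show cU a t U i + (bif (U i && !(a i == t)) then 1 else 0) = _
  by_cases h : U i = true ∧ a i ≠ t
  · have e1 : (a i == t) = false := by simpa using h.2
    rw [e1, h.1]; simp [h.2]
  · have e1 : (U i && !(a i == t)) = false := by
      by_cases hU : U i = true
      · have h2 : a i = t := by
          by_contra h'
          exact h ⟨hU, h'⟩
        rw [h2]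
        simp
      · rw [Bool.not_eq_true] at hU
        rw [hU]; rfl
    rw [e1, if_neg h]
    rfl

lemma cn_swp_same (a : ℕ → ℕ) (t : ℕ) (U : ℕ → Bool) (n : ℕ)
    (ha : ∀ i, i < n → a i < 3) : cn (swp a t U) t n = cn a t n := by
  induction n with
  | zero => rfl
  | succ i ih =>
    rw [cn_succ, cn_succ, ih (fun k hk => ha k (by omega))]
    by_cases h : U i = true ∧ a i ≠ t
    · rw [swp_of h]
      have h1 := ha i (by omega)
      have h2 := h.2
      have h3 : 3 - t - a i ≠ t := by omega
      rw [if_neg h3, if_neg h2]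
    · rw [swp_not h]

lemma cn_swp_other (a : ℕ → ℕ) (t s : ℕ) (ht : t < 3) (hs : s < 3) (hst : s ≠ t) (U : ℕ → Bool)
    (n : ℕ) (ha : ∀ i, i < n → a i < 3) :
    (cn (swp a t U) s n + cn a s n + cU a t U n) % 2 = 0 := by
  induction n with
  | zero => rfl
  | succ i ih =>
    have ih' := ih (fun k hk => ha k (by omega))
    rw [cn_succ, cn_succ, cU_succ]
    by_cases h : U i = true ∧ a i ≠ t
    · rw [swp_of h, if_pos h]
      have h1 := ha i (by omega)
      have h2 := h.2
      split_ifs <;> omega
    · rw [swp_not h, if_neg h]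
      split_ifs <;> omega

theorem par_swp {n : ℕ} {a : ℕ → ℕ} (ha : ∀ i, i < n → a i < 3) {t : ℕ}
    (ht : t < 3) {U : ℕ → Bool} (hp : Par n a)
    (hc : cU a t U n % 2 = 0) : Par n (swp a t U) := by
  intro s hs
  by_cases hst : s = t
  · subst hst
    rw [cn_swp_same a s U n ha]
    exact hp s hs
  · have h1 := cn_swp_other a t s ht hs hst U n ha
    have h2 := hp s hs
    omega

/-! ### The bad words of length six -/

/-- in every matching without an extending switch the positions `x` and `y` are matched -/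
def forced (n : ℕ) (a : ℕ → ℕ) (t x y : ℕ) : Bool :=
  chkM (fun acc => okSw (ext n) a t acc ||
    acc.any (fun p => (p.1 == x && p.2 == y) || (p.1 == y && p.2 == x))) n (ter n a t) []

def chkB (n : ℕ) (a : ℕ → ℕ) : Bool :=
  pat n a || (ext n a || (!(par n a) || [0, 1, 2].any (fun t => (List.range n).any (fun x =>
    (List.range n).any (fun y => (decide (x < y) && !(a x == t) && !(a y == t)) &&
      ((ext n (sw a t x y) || pat n (sw a t x y)) && forced n a t x y))))))

theorem b6 : allW 6 (fun l => chkB 6 (wf l)) = true := by decide +kernel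

theorem bad_sound {n : ℕ} (h6 : n ≤ 6) {a : ℕ → ℕ} (ha : IsWord n a) (hp : Par n a)
    (he : ext n a = false) (hb : pat n a = false) :
    ∃ t x y, t < 3 ∧ x < n ∧ y < n ∧ x ≠ y ∧ a x ≠ t ∧ a y ≠ t ∧
      (ext n (sw a t x y) = true ∨ pat n (sw a t x y) = true) ∧
      ∀ m, Pairs n a t m → (∃ i, i < n ∧ a i ≠ t ∧ ext n (sw a t i (m i)) = true) ∨ m x = y := by
  have hn : n = 6 := by
    by_contra hn
    have : pat n a = true := by
      unfold pat
      have e : (n == 6) = false := by simpa using hn
      rw [e]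
      rfl
    rw [this] at hb
    exact absurd hb (by simp)
  subst hn
  obtain ⟨l, hl1, hl2, rfl⟩ := ha.eq_wf
  have h1 := allW_sound 6 _ b6 l hl1 hl2
  unfold chkB at h1
  rw [hb, he, (par_iff 6 _).2 hp] at h1
  simp only [Bool.false_or, Bool.not_true, List.any_eq_true, Bool.and_eq_true, decide_eq_true_eq,
    Bool.not_eq_true', beq_eq_false_iff_ne, Bool.or_eq_true, List.mem_range] at h1
  obtain ⟨t, ht, x, hx, y, hy, ⟨⟨hxy, hax⟩, hay⟩, h2, h3⟩ := h1
  have ht3 : t < 3 := by
    simp only [List.mem_cons, List.not_mem_nil, or_false] at ht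
    omega
  refine ⟨t, x, y, ht3, hx, hy, hxy.ne, hax, hay, h2, fun m hm => ?_⟩
  unfold forced at h3
  obtain ⟨acc', c1, c2, c3, _⟩ := chkM_sound _ m 6 (ter 6 (wf l) t) [] (ter_nodup 6 _ t) (by
    intro z hz
    rw [mem_ter] at hz
    have := hm z hz.1 hz.2
    exact ⟨mem_ter.2 ⟨this.1, this.2.1⟩, this.2.2.1, this.2.2.2⟩) h3
  rw [Bool.or_eq_true] at c1
  rcases c1 with c1 | c1
  · left
    simp only [okSw, List.any_eq_true] at c1
    obtain ⟨p, hp, hR⟩ := c1
    rcases c2 p hp with h4 | h4
    · simp at h4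
    · rw [mem_ter] at h4
      refine ⟨p.1, h4.1.1, h4.1.2, ?_⟩
      rw [← h4.2]
      exact hR
  · right
    simp only [List.any_eq_true, Bool.or_eq_true, Bool.and_eq_true, beq_iff_eq] at c1
    obtain ⟨p, hp, hR⟩ := c1
    rcases c2 p hp with h4 | h4
    · simp at h4
    · rw [mem_ter] at h4
      rcases hR with ⟨h5, h6⟩ | ⟨h5, h6⟩
      · rw [← h5, ← h4.2]
        exact h6
      · have h7 := (hm y hy hay).2.2.2
        rw [h5, h6] at h4
        rw [h4.2]
        exact h7

/-- full switches do not change the kind of a word -/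
theorem pat_full {n : ℕ} {a b : ℕ → ℕ} {t : ℕ} (ht : t < 3) (ha : ∀ i, i < n → a i < 3)
    (hb : ∀ i, i < n → b i = if a i = t then a i else 3 - t - a i) : pat n b = pat n a := by
  unfold pat
  by_cases hn : n = 6
  · subst hn
    have key : ∀ i j, i < 6 → j < 6 → (b i == b j) = (a i == a j) := by
      intro i j hi hj
      have h1 := ha i hi
      have h2 := ha j hj
      rw [Bool.eq_iff_iff, beq_iff_eq, beq_iff_eq, hb i hi, hb j hj]
      split_ifs <;> omega
    rw [key 0 3, key 1 4, key 2 5, key 0 1, key 1 2, key 2 3, key 4 5, key 3 4, key 5 0] <;>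
      norm_num
  · have : (n == 6) = false := by simpa using hn
    rw [this]
    rfl

/-- pairs of summands with odd sums -/
theorem sum_pairs (s : Finset ℕ) (r : ℕ → ℕ) (m : ℕ → ℕ)
    (hm : ∀ i ∈ s, m i ∈ s ∧ m i ≠ i ∧ m (m i) = i ∧ (r i + r (m i)) % 2 = 1) :
    s.card % 2 = 0 ∧ (∑ i ∈ s, r i + s.card / 2) % 2 = 0 := by
  classical
  induction hn : s.card using Nat.strong_induction_on generalizing s with
  | _ n ih =>
    by_cases hs : s = ∅
    · subst hs
      simp at hn
      subst hn
      simp
    · obtain ⟨x, hx⟩ := Finset.nonempty_iff_ne_empty.2 hs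
      obtain ⟨h1, h2, h3, h4⟩ := hm x hx
      have hmx : m x ∈ s.erase x := Finset.mem_erase.2 ⟨h2, h1⟩
      set s' := (s.erase x).erase (m x) with hs'
      have hc : s'.card + 2 = n := by
        rw [hs', Finset.card_erase_of_mem hmx, Finset.card_erase_of_mem hx, hn]
        have : 0 < (s.erase x).card := Finset.card_pos.2 ⟨_, hmx⟩
        rw [Finset.card_erase_of_mem hx, hn] at this
        omega
      have hm' : ∀ i ∈ s', m i ∈ s' ∧ m i ≠ i ∧ m (m i) = i ∧ (r i + r (m i)) % 2 = 1 := by
        intro i hi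
        rw [hs', Finset.mem_erase, Finset.mem_erase] at hi
        obtain ⟨g1, g2, g3, g4⟩ := hm i hi.2.2
        refine ⟨?_, g2, g3, g4⟩
        rw [hs', Finset.mem_erase, Finset.mem_erase]
        refine ⟨?_, ?_, g1⟩
        · intro e
          apply hi.2.1
          rw [← g3, e, h3]
        · intro e
          apply hi.1
          rw [← g3, e]
      obtain ⟨k1, k2⟩ := ih s'.card (by omega) s' hm' rfl
      have hsum : ∑ i ∈ s, r i = r x + r (m x) + ∑ i ∈ s', r i := by
        rw [← Finset.add_sum_erase s r hx, ← Finset.add_sum_erase _ r hmx]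
        ring
      rw [hsum]
      omega

open scoped Classical in
/-- removing two equivalent elements keeps the classes even -/
theorem even_erase {T : Finset ℕ} {rel : ℕ → ℕ → Prop} (hr : Equivalence rel)
    (hev : ∀ x ∈ T, Even (T.filter (fun y => rel x y)).card) {x y : ℕ} (hx : x ∈ T) (hy : y ∈ T)
    (hxy : x ≠ y) (h : rel x y) :
    ∀ z ∈ (T.erase x).erase y, Even (((T.erase x).erase y).filter (fun w => rel z w)).card := by
  intro z hz
  rw [Finset.mem_erase, Finset.mem_erase] at hz
  have h1 : ((T.erase x).erase y).filter (fun w => rel z w) =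
      ((T.filter (fun w => rel z w)).erase x).erase y := by
    ext w
    simp only [Finset.mem_filter, Finset.mem_erase]
    tauto
  rw [h1]
  have h2 := hev z hz.2.2
  by_cases hzx : rel z x
  · have hzy : rel z y := hr.trans hzx h
    have m1 : x ∈ T.filter (fun w => rel z w) := Finset.mem_filter.2 ⟨hx, hzx⟩
    have m2 : y ∈ (T.filter (fun w => rel z w)).erase x :=
      Finset.mem_erase.2 ⟨hxy.symm, Finset.mem_filter.2 ⟨hy, hzy⟩⟩
    rw [Finset.card_erase_of_mem m2, Finset.card_erase_of_mem m1]
    have h3 : 0 < ((T.filter (fun w => rel z w)).erase x).card := Finset.card_pos.2 ⟨_, m2⟩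
    rw [Finset.card_erase_of_mem m1] at h3
    obtain ⟨k, hk⟩ := h2
    exact ⟨k - 1, by omega⟩
  · have hzy : ¬ rel z y := fun h' => hzx (hr.trans h' (hr.symm h))
    rw [Finset.erase_eq_of_notMem, Finset.erase_eq_of_notMem]
    · exact h2
    · simp [hzx]
    · simp [hzy]

open scoped Classical in
/-- a matching of the positions inside the classes -/
theorem exists_matching (rel : ℕ → ℕ → Prop) (hr : Equivalence rel) : ∀ (N : ℕ) (T : Finset ℕ),
    T.card = N → (∀ x ∈ T, Even (T.filter (fun y => rel x y)).card) →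
    ∃ m : ℕ → ℕ, ∀ i ∈ T, m i ∈ T ∧ m i ≠ i ∧ m (m i) = i ∧ rel i (m i) := by
  intro N
  induction N using Nat.strong_induction_on with
  | _ N ih =>
    intro T hN hev
    by_cases hT : T = ∅
    · exact ⟨id, fun i hi => by rw [hT] at hi; simp at hi⟩
    · obtain ⟨x, hx⟩ := Finset.nonempty_iff_ne_empty.2 hT
      have h1 : ∃ y ∈ T, x ≠ y ∧ rel x y := by
        by_contra hcon
        push Not at hcon
        have h2 : T.filter (fun y => rel x y) = {x} := by
          ext y
          simp only [Finset.mem_filter, Finset.mem_singleton]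
          constructor
          · rintro ⟨h3, h4⟩
            by_contra h5
            exact hcon y h3 (fun h => h5 h.symm) h4
          · rintro rfl
            exact ⟨hx, hr.refl _⟩
        have h3 := hev x hx
        rw [h2] at h3
        simp at h3
      obtain ⟨y, hy, hxy, hrel⟩ := h1
      have my : y ∈ T.erase x := Finset.mem_erase.2 ⟨hxy.symm, hy⟩
      obtain ⟨m, hm⟩ := ih _ (by
        rw [Finset.card_erase_of_mem my, Finset.card_erase_of_mem hx, hN]
        have : 0 < T.card := Finset.card_pos.2 ⟨x, hx⟩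
        omega) ((T.erase x).erase y) rfl (even_erase hr hev hx hy hxy hrel)
      refine ⟨fun i => if i = x then y else if i = y then x else m i, fun i hi => ?_⟩
      by_cases hix : i = x
      · subst hix
        simp only [if_true, hxy.symm, if_false]
        exact ⟨hy, hxy.symm, trivial, hrel⟩
      · by_cases hiy : i = y
        · subst hiy
          simp only [if_true, hix, if_false]
          exact ⟨hx, hxy, trivial, hr.symm hrel⟩
        · have mi : i ∈ (T.erase x).erase y :=
            Finset.mem_erase.2 ⟨hiy, Finset.mem_erase.2 ⟨hix, hi⟩⟩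
          obtain ⟨g1, g2, g3, g4⟩ := hm i mi
          rw [Finset.mem_erase, Finset.mem_erase] at g1
          simp only [hix, hiy, g1.1, g1.2.1, if_false]
          exact ⟨g1.2.2, g2, g3, g4⟩

open scoped Classical in
/-- a matching of the positions inside the classes, with a prescribed pair -/
theorem exists_matching_pair (rel : ℕ → ℕ → Prop) (hr : Equivalence rel) (T : Finset ℕ)
    (hev : ∀ x ∈ T, Even (T.filter (fun y => rel x y)).card) {x y : ℕ} (hx : x ∈ T) (hy : y ∈ T)
    (hxy : x ≠ y) (hrel : rel x y) :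
    ∃ m : ℕ → ℕ, (∀ i ∈ T, m i ∈ T ∧ m i ≠ i ∧ m (m i) = i ∧ rel i (m i)) ∧ m x = y := by
  obtain ⟨m, hm⟩ := exists_matching rel hr _ _ rfl (even_erase hr hev hx hy hxy hrel)
  refine ⟨fun i => if i = x then y else if i = y then x else m i, fun i hi => ?_, by simp⟩
  by_cases hix : i = x
  · subst hix
    simp only [if_true, hxy.symm, if_false]
    exact ⟨hy, hxy.symm, trivial, hrel⟩
  · by_cases hiy : i = y
    · subst hiy
      simp only [if_true, hix, if_false]
      exact ⟨hx, hxy, trivial, hr.symm hrel⟩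
    · have mi : i ∈ (T.erase x).erase y :=
        Finset.mem_erase.2 ⟨hiy, Finset.mem_erase.2 ⟨hix, hi⟩⟩
      obtain ⟨g1, g2, g3, g4⟩ := hm i mi
      rw [Finset.mem_erase, Finset.mem_erase] at g1
      simp only [hix, hiy, g1.1, g1.2.1, if_false]
      exact ⟨g1.2.2, g2, g3, g4⟩

end Pool.Agent.H66.SX
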